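import Pool.Agent.H223.EM.MDefs
import Pool.Agent.H306R2.EPLim
import Pool.Agent.H306R2.Karamata2

set_option autoImplicit false

/-!
Eighth moment lower bound: mean squares of the coefficients `c1`, `c2` (tasks MS1, MS2).
-/

namespace Pool.Agent.H85R2.EM

open Finset Filter Topology MeasureTheory Complex
open Pool.Agent.H306R2 Pool.Agent.H306R2.SM Pool.Agent.H223.EM

noncomputable section

/-- the `tsum` over pairs is a finite sum over `SS'` -/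
lemma tsum_SS {ε T : ℝ} (hT : 1 < T) (w : (Fin 2 → ℕ) → ℝ)
    (hw : ∀ b, ¬ (Nat.Coprime (b 0) (b 1) ∧ b 0 ≠ 0 ∧ b 1 ≠ 0) → w b = 0)
    (φ : (Fin 2 → ℝ) → ℝ)
    (h0 : ∀ u : Fin 2 → ℝ, (∀ i, 0 ≤ u i) → (∃ i, 1 / 2 - ε ≤ u i) → φ u = 0) :
    ∑' b : Fin 2 → ℕ, w b * φ (pos (Real.log T) b) =
      ∑ p ∈ SS' ε T, w ![p.1, p.2] * φ ![Real.log p.1 / Real.log T, Real.log p.2 / Real.log T] := by
  have hL : 0 < Real.log T := Real.log_pos hT
  have hpos : ∀ p : ℕ × ℕ, pos (Real.log T) ![p.1, p.2] =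
      ![Real.log p.1 / Real.log T, Real.log p.2 / Real.log T] := by
    intro p
    funext i
    fin_cases i <;> simp [pos]
  rw [← (finTwoArrowEquiv ℕ).symm.tsum_eq (fun b : Fin 2 → ℕ => w b * φ (pos (Real.log T) b))]
  have e : ∀ p : ℕ × ℕ, (finTwoArrowEquiv ℕ).symm p = ![p.1, p.2] := fun p => rfl
  rw [tsum_eq_sum (s := SS' ε T)]
  · refine sum_congr rfl fun p _ => ?_
    rw [e, hpos]
  · intro p hp
    rw [e]
    by_cases hc : Nat.Coprime p.1 p.2 ∧ p.1 ≠ 0 ∧ p.2 ≠ 0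
    · have hφ : φ (pos (Real.log T) ![p.1, p.2]) = 0 := by
        apply h0 _ (pos_nonneg hL _)
        by_contra hcon
        push Not at hcon
        apply hp
        have key : ∀ x : ℕ, x ≠ 0 → Real.log x / Real.log T < 1 / 2 - ε →
            x ∈ Icc 1 ⌊T ^ (1 / 2 - ε)⌋₊ := by
          intro x hx hlt
          rw [mem_Icc]
          refine ⟨Nat.one_le_iff_ne_zero.mpr hx, ?_⟩
          apply Nat.le_floor
          have hx0 : (0 : ℝ) < x := by exact_mod_cast Nat.pos_of_ne_zero hx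
          rw [div_lt_iff₀ hL] at hlt
          have hT0 : 0 < T := by linarith
          rw [Real.rpow_def_of_pos hT0]
          rw [← Real.log_le_iff_le_exp hx0]
          linarith
        unfold SS'
        rw [mem_filter, mem_product]
        refine ⟨⟨key _ hc.2.1 ?_, key _ hc.2.2 ?_⟩, hc.1⟩
        · have := hcon 0; simpa [pos] using this
        · have := hcon 1; simpa [pos] using this
      rw [hφ, mul_zero]
    · rw [hw _ (by simpa using hc), zero_mul]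

lemma et_zero {ε x : ℝ} (hε : 0 < ε) (hx : 1 / 2 - ε ≤ x) : et ε x = 0 := by
  unfold et
  exact sc_eq_zero hε (by linarith)

lemma et_cont (ε : ℝ) : Continuous (et ε) := sc_cont _ _

lemma mem_SS {ε T : ℝ} {p : ℕ × ℕ} (hp : p ∈ SS' ε T) :
    Nat.Coprime p.1 p.2 ∧ p.1 ≠ 0 ∧ p.2 ≠ 0 := by
  unfold SS' at hp
  rw [mem_filter, mem_product, mem_Icc, mem_Icc] at hp
  exact ⟨hp.2, by omega, by omega⟩

/-- general form -/
lemma gen {ε : ℝ} (hε1 : ε < 1 / 8) (w : (Fin 2 → ℕ) → ℝ) (H : KH 2 w)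
    (hw : ∀ b, ¬ (Nat.Coprime (b 0) (b 1) ∧ b 0 ≠ 0 ∧ b 1 ≠ 0) → w b = 0)
    (K : ℕ) (A : ℝ) (hA : 0 ≤ A) (m : Fin 2 → ℝ) (hm : ∀ i, 0 < m i)
    (hlim : ∀ s : Fin 2 → ℝ, (∀ i, 0 < s i) →
      Tendsto (fun L : ℝ => (∑' b : Fin 2 → ℕ, w b * ∏ i, (b i : ℝ) ^ (-(s i / L))) / L ^ (K : ℝ))
        atTop (𝓝 (A * ∏ i, (s i) ^ (-(m i)))))
    (φ : (Fin 2 → ℝ) → ℝ) (hφ : Continuous φ)
    (h0 : ∀ u : Fin 2 → ℝ, (∀ i, 0 ≤ u i) → (∃ i, 1 / 2 - ε ≤ u i) → φ u = 0) :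
    Tendsto (fun T : ℝ => (∑ p ∈ SS' ε T, w ![p.1, p.2] *
        φ ![Real.log p.1 / Real.log T, Real.log p.2 / Real.log T]) / Real.log T ^ K) atTop
      (𝓝 (A * ∫ u : Fin 2 → ℝ, Gd m u * φ u)) := by
  have h := karamata H K A hA m hm hlim φ hφ (1 / 2 - ε) h0 (by linarith)
  refine (h.comp Real.tendsto_log_atTop).congr' ?_
  filter_upwards [eventually_gt_atTop 1] with T hT
  simp only [Function.comp]
  rw [tsum_SS hT w hw φ h0, Real.rpow_natCast]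

theorem sum_c1_sq_of (hw2 : KH 2 w2 ∧ ∀ s : Fin 2 → ℝ, (∀ i, 0 < s i) →
    Tendsto (fun L : ℝ => (∑' b : Fin 2 → ℕ, w2 b * ∏ i, (b i : ℝ) ^ (-(s i / L))) / L ^ (10 : ℝ))
      atTop (𝓝 (aF 4 * ∏ i, (s i) ^ (-((![9, 1] : Fin 2 → ℝ) i)))))
    (ε : ℝ) (hε : 0 < ε) (hε1 : ε < 1 / 8) :
    Tendsto (fun T : ℝ => (∑ b ∈ SS' ε T, c1 ε T b ^ 2) / Real.log T ^ 16) atTop
      (𝓝 (aF 4 * IW1n ε)) := by
  have haF : 0 < aF 4 := aF_pos (by norm_num)
  have hlim : ∀ s : Fin 2 → ℝ, (∀ i, 0 < s i) →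
      Tendsto (fun L : ℝ => (∑' b : Fin 2 → ℕ, w2 b * ∏ i, (b i : ℝ) ^ (-(s i / L))) /
        L ^ ((10 : ℕ) : ℝ)) atTop (𝓝 (aF 4 * ∏ i, (s i) ^ (-((![9, 1] : Fin 2 → ℝ) i)))) := by
    intro s hs
    have := hw2.2 s hs
    simpa using this
  have h := gen hε1 w2 hw2.1 (fun b hb => by unfold w2; rw [if_neg hb]) 10 (aF 4) haF.le
    ![9, 1] (by intro i; fin_cases i <;> simp) hlim (fun u => f1 ε (u 0) (u 1) ^ 2)
    (by unfold f1 GG et sc; fun_prop)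
    (by
      rintro u - ⟨i, hi⟩
      have hz := et_zero hε hi
      fin_cases i
      · simp only [f1]; simp at hz; rw [hz]; ring
      · simp only [f1]; simp at hz; rw [hz]; ring)
  refine h.congr' ?_
  filter_upwards [eventually_gt_atTop 1] with T hT
  have hL : Real.log T ≠ 0 := (Real.log_pos hT).ne'
  have e : ∑ b ∈ SS' ε T, c1 ε T b ^ 2 = Real.log T ^ 6 * ∑ p ∈ SS' ε T, w2 ![p.1, p.2] *
      f1 ε (Real.log p.1 / Real.log T) (Real.log p.2 / Real.log T) ^ 2 := by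
    rw [mul_sum]
    refine sum_congr rfl fun p hp => ?_
    have hc := mem_SS hp
    have hp1 : (0 : ℝ) < p.1 := by exact_mod_cast Nat.pos_of_ne_zero hc.2.1
    have hp2 : (0 : ℝ) < p.2 := by exact_mod_cast Nat.pos_of_ne_zero hc.2.2
    have hw : w2 ![p.1, p.2] = ps p.1 ^ 2 / ((p.1 : ℝ) * p.2) := by
      unfold w2
      simp only [Matrix.cons_val_zero, Matrix.cons_val_one]
      rw [if_pos hc]
    rw [hw]
    unfold c1
    rw [div_pow, Real.sq_sqrt (by positivity)]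
    ring
  rw [e]
  simp only [Matrix.cons_val_zero, Matrix.cons_val_one]
  field_simp

theorem sum_c2_sq_of (hv2 : 0 < kp ∧ KH 2 v2 ∧ ∀ s : Fin 2 → ℝ, (∀ i, 0 < s i) →
    Tendsto (fun L : ℝ => (∑' b : Fin 2 → ℕ, v2 b * ∏ i, (b i : ℝ) ^ (-(s i / L))) / L ^ (8 : ℝ))
      atTop (𝓝 (aF 4 / kp ^ 2 * ∏ i, (s i) ^ (-((![4, 4] : Fin 2 → ℝ) i)))))
    (ε : ℝ) (hε : 0 < ε) (hε1 : ε < 1 / 8) :
    Tendsto (fun T : ℝ => (∑ b ∈ SS' ε T, c2 ε T b ^ 2) / Real.log T ^ 16) atTop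
      (𝓝 (aF 4 * IW2n ε)) := by
  have haF : 0 < aF 4 := aF_pos (by norm_num)
  have hkp : 0 < kp := hv2.1
  have hlim : ∀ s : Fin 2 → ℝ, (∀ i, 0 < s i) →
      Tendsto (fun L : ℝ => (∑' b : Fin 2 → ℕ, v2 b * ∏ i, (b i : ℝ) ^ (-(s i / L))) /
        L ^ ((8 : ℕ) : ℝ)) atTop
        (𝓝 (aF 4 / kp ^ 2 * ∏ i, (s i) ^ (-((![4, 4] : Fin 2 → ℝ) i)))) := by
    intro s hs
    have := hv2.2.2 s hs
    simpa using this
  have h := gen hε1 v2 hv2.2.1 (fun b hb => by unfold v2; rw [if_neg hb]) 8 (aF 4 / kp ^ 2)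
    (by positivity) ![4, 4] (by intro i; fin_cases i <;> simp) hlim
    (fun u => f2 ε (u 0) (u 1) ^ 2)
    (by unfold f2 et sc; fun_prop)
    (by
      rintro u - ⟨i, hi⟩
      have hz := et_zero hε hi
      fin_cases i
      · simp only [f2]; simp at hz; rw [hz]; ring
      · simp only [f2]; simp at hz; rw [hz]; ring)
  have h2 := h.const_mul (kp ^ 2)
  have hlimit : kp ^ 2 * (aF 4 / kp ^ 2 * ∫ u : Fin 2 → ℝ, Gd ![4, 4] u * f2 ε (u 0) (u 1) ^ 2) =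
      aF 4 * IW2n ε := by
    unfold IW2n
    field_simp
  rw [hlimit] at h2
  refine h2.congr' ?_
  filter_upwards [eventually_gt_atTop 1] with T hT
  have hL : Real.log T ≠ 0 := (Real.log_pos hT).ne'
  have e : ∑ b ∈ SS' ε T, c2 ε T b ^ 2 = Real.log T ^ 8 * kp ^ 2 * ∑ p ∈ SS' ε T,
      v2 ![p.1, p.2] * f2 ε (Real.log p.1 / Real.log T) (Real.log p.2 / Real.log T) ^ 2 := by
    rw [mul_sum]
    refine sum_congr rfl fun p hp => ?_
    have hc := mem_SS hp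
    have hp1 : (0 : ℝ) < p.1 := by exact_mod_cast Nat.pos_of_ne_zero hc.2.1
    have hp2 : (0 : ℝ) < p.2 := by exact_mod_cast Nat.pos_of_ne_zero hc.2.2
    have hw : v2 ![p.1, p.2] = De p.1 ^ 2 * De p.2 ^ 2 / ((p.1 : ℝ) * p.2) := by
      unfold v2
      simp only [Matrix.cons_val_zero, Matrix.cons_val_one]
      rw [if_pos hc]
    rw [hw]
    unfold c2
    rw [div_pow, Real.sq_sqrt (by positivity)]
    ring
  rw [e]
  simp only [Matrix.cons_val_zero, Matrix.cons_val_one]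
  field_simp

end

end Pool.Agent.H85R2.EM
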