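import Pool.Agent.H961R2.Lev.Stubs

set_option autoImplicit false

/-! Task C2 of the project LEV: levels, from `Q` to `p`. -/

namespace Pool.Agent.H85R2.LevC2

open H961Lev

namespace C2Aux

theorem lev (L a b : ℤ) :
    ∑ l ∈ Finset.Icc 1 L, |(if l ≤ a then (1 : ℤ) else 0) - (if l ≤ b then 1 else 0)| ≤ |a - b| := by
  have h1 : ∑ l ∈ Finset.Icc 1 L, |(if l ≤ a then (1 : ℤ) else 0) - (if l ≤ b then 1 else 0)| =
      ∑ l ∈ Finset.Icc 1 L, if (min a b < l ∧ l ≤ max a b) then (1 : ℤ) else 0 := by
    apply Finset.sum_congr rfl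
    intro l _
    by_cases ha : l ≤ a <;> by_cases hb : l ≤ b
    · rw [if_pos ha, if_pos hb, if_neg (by rintro ⟨h, -⟩; rw [min_lt_iff] at h; omega)]; rfl
    · rw [if_pos ha, if_neg hb, if_pos (by
        constructor
        · rw [min_lt_iff]; omega
        · rw [le_max_iff]; omega)]; rfl
    · rw [if_neg ha, if_pos hb, if_pos (by
        constructor
        · rw [min_lt_iff]; omega
        · rw [le_max_iff]; omega)]; rfl
    · rw [if_neg ha, if_neg hb, if_neg (by rintro ⟨-, h⟩; rw [le_max_iff] at h; omega)]; rfl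
  rw [h1, ← Finset.sum_filter, Finset.sum_const, nsmul_eq_mul, mul_one]
  have h2 : (Finset.Icc 1 L).filter (fun l => min a b < l ∧ l ≤ max a b) ⊆
      Finset.Ioc (min a b) (max a b) := by
    intro l hl
    rw [Finset.mem_filter] at hl
    exact Finset.mem_Ioc.mpr hl.2
  have h3 := Finset.card_le_card h2
  rw [Int.card_Ioc] at h3
  have h4 : max a b - min a b = |a - b| := max_sub_min_eq_abs a b |>.trans (abs_sub_comm _ _)
  rw [h4] at h3
  have h5 : ((|a - b|).toNat : ℤ) = |a - b| := Int.toNat_of_nonneg (abs_nonneg _)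
  calc (((Finset.Icc 1 L).filter (fun l => min a b < l ∧ l ≤ max a b)).card : ℤ)
      ≤ ((|a - b|).toNat : ℤ) := by exact_mod_cast h3
    _ = |a - b| := h5

theorem step (K K' : ℤ) (p : ℤ → ℤ) (hp : ∀ t, K < |t| → p t = 0) (hK : 0 ≤ K) (hKK : K ≤ K')
    (t : ℤ) : ∑ s ∈ Finset.Icc (-K') t, p s - ∑ s ∈ Finset.Icc (-K') (t - 1), p s = p t := by
  rcases lt_or_ge t (-K') with h | h
  · rw [Finset.Icc_eq_empty (by omega), Finset.Icc_eq_empty (by omega), hp t (by
      rw [lt_abs]; right; omega)]
    simp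
  · have e : Finset.Icc (-K') t = insert t (Finset.Icc (-K') (t - 1)) := by
      ext s
      simp only [Finset.mem_Icc, Finset.mem_insert]
      omega
    rw [e, Finset.sum_insert (by simp)]
    ring

end C2Aux

open C2Aux in
theorem T_C2 : S_C1 → S_C2 := by
  intro hC1 N m K K' x p hm hmN hx hF hp hK hKK
  have hK' : K ≤ K' := by have : (0 : ℤ) ≤ N := Int.natCast_nonneg N; omega
  set P : ℤ → ℤ := fun t => ∑ s ∈ Finset.Icc (-K') t, p s with hP
  have hstep : ∀ t, P t - P (t - 1) = p t := fun t => step K K' p hp hK hK' t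
  have hD : ∀ (M : ℕ) (t : ℤ), ∑ k ∈ Finset.range M, p (t - k) = P t - P (t - M) := by
    intro M t
    induction M with
    | zero => simp
    | succ M ih =>
      rw [Finset.sum_range_succ, ih]
      have h := hstep (t - M)
      push_cast
      have e : t - (M + 1 : ℤ) = t - M - 1 := by ring
      rw [e]
      linarith
  set L : ℤ := ∑ t ∈ Finset.Icc (-K') K', p t with hL
  have hPlow : ∀ t, t < -K → P t = 0 := by
    intro t ht
    apply Finset.sum_eq_zero
    intro s hs
    rw [Finset.mem_Icc] at hs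
    apply hp
    rw [lt_abs]; right; omega
  have hsumK : ∀ t, K ≤ t → P t = ∑ s ∈ Finset.Icc (-K') K, p s := by
    intro t ht
    symm
    apply Finset.sum_subset
    · intro s hs
      rw [Finset.mem_Icc] at hs ⊢
      omega
    · intro s hs hs'
      rw [Finset.mem_Icc] at hs hs'
      apply hp
      rw [lt_abs]; left; omega
  have hPhigh : ∀ t, K ≤ t → P t = L := by
    intro t ht
    rw [hsumK t ht, hL]
    exact (hsumK K' hK').symm
  have hw1 : ∀ t, 0 ≤ |x t - x (t - 1)| := fun t => abs_nonneg _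
  have hw2 : ∀ t, 0 ≤ 2 * m - ∑ k ∈ Finset.range N, x (t + k)
      - ∑ k ∈ Finset.range N, x (t - 1 + k) := by
    intro t
    have h1 := hF t
    have h2 := hF (t - 1)
    linarith
  rcases le_or_gt L 0 with hL0 | hL0
  · have hR : 0 ≤ ∑ t ∈ Finset.Icc (-K') K',
        (|∑ k ∈ Finset.range N, p (t - k)| * |x t - x (t - 1)| +
        |p t| * (2 * m - ∑ k ∈ Finset.range N, x (t + k)
          - ∑ k ∈ Finset.range N, x (t - 1 + k))) := by
      apply Finset.sum_nonneg
      intro t _
      exact add_nonneg (mul_nonneg (abs_nonneg _) (hw1 t)) (mul_nonneg (abs_nonneg _) (hw2 t))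
    linarith
  · have hl : ∀ l ∈ Finset.Icc 1 L, (2 : ℤ) ≤ ∑ t ∈ Finset.Icc (-K') K',
        (|(if l ≤ P t then (1 : ℤ) else 0) - (if l ≤ P (t - N) then 1 else 0)| *
            |x t - x (t - 1)| +
          |(if l ≤ P t then (1 : ℤ) else 0) - (if l ≤ P (t - 1) then 1 else 0)| *
            (2 * m - ∑ k ∈ Finset.range N, x (t + k) - ∑ k ∈ Finset.range N, x (t - 1 + k))) := by
      intro l hl
      rw [Finset.mem_Icc] at hl
      refine hC1 N m K K' x (fun t => if l ≤ P t then 1 else 0) hm hmN hx hF ?_ ?_ ?_ hK hKK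
      · intro t
        by_cases h : l ≤ P t
        · right; simp [h]
        · left; simp [h]
      · intro t ht
        simp only [hPlow t ht]
        rw [if_neg (by omega)]
      · intro t ht
        simp only [hPhigh t ht]
        rw [if_pos hl.2]
    have hsum := Finset.sum_le_sum hl
    rw [Finset.sum_const, Int.card_Icc, Finset.sum_comm] at hsum
    have hcard : (L + 1 - 1).toNat • (2 : ℤ) = 2 * L := by
      rw [nsmul_eq_mul]
      have : (((L + 1 - 1).toNat : ℕ) : ℤ) = L := by
        rw [Int.toNat_of_nonneg (by omega)]; ring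
      rw [this]; ring
    rw [hcard] at hsum
    refine hsum.trans ?_
    apply Finset.sum_le_sum
    intro t _
    rw [Finset.sum_add_distrib, ← Finset.sum_mul, ← Finset.sum_mul]
    apply add_le_add
    · apply mul_le_mul_of_nonneg_right _ (hw1 t)
      rw [hD N t]
      exact lev L (P t) (P (t - N))
    · apply mul_le_mul_of_nonneg_right _ (hw2 t)
      rw [← hstep t]
      exact lev L (P t) (P (t - 1))

end Pool.Agent.H85R2.LevC2
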