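import Mathlib

/-!
The graded pieces of the lower central series of a group.
-/

set_option autoImplicit false

open scoped commutatorElement DirectSum

namespace Pool.Agent.H85R2.GrLie

variable (G : Type*) [Group G]

/-- `Gam G k` is the `(k+1)`-st term of the lower central series of `G`: `Gam G 0 = G`. -/
abbrev Gam (k : ℕ) : Subgroup G := (⊤ : Subgroup G).lowerCentralSeries k

/-- The component of degree `k + 1` of `E_0^*(G)`: the abelian group
`Γ_{k+1} G / Γ_{k+2} G`, written additively. -/
def Comp (k : ℕ) : Type _ := Additive ((Gam G k) ⧸ (Gam G (k + 1)).subgroupOf (Gam G k))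

variable {G}

instance gam_normal (k : ℕ) : (Gam G k).Normal := inferInstance

theorem comm_le (i j : ℕ) : ⁅Gam G i, Gam G j⁆ ≤ Gam G (i + j + 1) := by
  induction j generalizing i with
  | zero => exact le_of_eq (Subgroup.lowerCentralSeries_succ _ i).symm
  | succ j ih =>
    rw [Subgroup.commutator_comm]
    -- ⁅⁅Γ j, ⊤⁆, Γ i⁆
    rw [Subgroup.commutator_le]
    intro g hg z hz
    have key : ⁅Gam G (j + 1), Gam G i⁆ ≤ Gam G (i + (j + 1) + 1) := by
      have h0 : Gam G (j + 1) = ⁅Gam G j, (⊤ : Subgroup G)⁆ := Subgroup.lowerCentralSeries_succ _ j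
      rw [h0, Subgroup.commutator_comm, Subgroup.commutator_le]
      intro z hz g hg
      -- centralizer style: the set of g with ⁅z,g⁆ ∈ N for all z is a subgroup
      have hN : (Gam G (i + (j + 1) + 1)).Normal := inferInstance
      let q := QuotientGroup.mk' (Gam G (i + (j + 1) + 1))
      have hq : ∀ w : G, q w = 1 ↔ w ∈ Gam G (i + (j + 1) + 1) := fun w =>
        QuotientGroup.eq_one_iff w
      have hgen : ∀ g ∈ ⁅Gam G j, (⊤ : Subgroup G)⁆, ∀ z ∈ Gam G i, q ⁅z, g⁆ = 1 := by
        have hle : ⁅Gam G j, (⊤ : Subgroup G)⁆ ≤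
            Subgroup.comap q (Subgroup.centralizer ((Gam G i).map q : Set _)) := by
          rw [Subgroup.commutator_le]
          intro x hx y _
          rw [Subgroup.mem_comap, Subgroup.mem_centralizer_iff]
          rintro _ ⟨z, hz, rfl⟩
          have hid : ⁅z, ⁅x, y⁆⁆ = x * z * ⁅y, ⁅z⁻¹, x⁻¹⁆⁆⁻¹ * z⁻¹ * y * ⁅x⁻¹, ⁅y⁻¹, z⁆⁆⁻¹ * y⁻¹ * x⁻¹ := by
            simp [commutatorElement_def, mul_assoc]
          have h1 : ⁅y, ⁅z⁻¹, x⁻¹⁆⁆ ∈ Gam G (i + (j + 1) + 1) := by
            have := ih i (Subgroup.commutator_mem_commutator (inv_mem hz) (inv_mem hx))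
            have h2 : ⁅⁅z⁻¹, x⁻¹⁆, y⁆ ∈ Gam G (i + j + 1 + 1) := by
              have h3 := Subgroup.commutator_mem_commutator this (Subgroup.mem_top y)
              rwa [← Subgroup.lowerCentralSeries_succ] at h3
            have h4 := inv_mem h2
            rw [commutatorElement_inv] at h4
            exact h4
          have h2 : ⁅x⁻¹, ⁅y⁻¹, z⁆⁆ ∈ Gam G (i + (j + 1) + 1) := by
            have h3 : ⁅z, y⁻¹⁆ ∈ Gam G (i + 1) := by
              have h3 := Subgroup.commutator_mem_commutator hz (Subgroup.mem_top y⁻¹)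
              rwa [← Subgroup.lowerCentralSeries_succ] at h3
            have h4 : ⁅y⁻¹, z⁆ ∈ Gam G (i + 1) := by
              have := inv_mem h3
              rwa [commutatorElement_inv] at this
            have h5 := ih (i + 1) (Subgroup.commutator_mem_commutator h4 (inv_mem hx))
            have h6 := inv_mem h5
            rw [commutatorElement_inv] at h6
            have e : i + 1 + j + 1 = i + (j + 1) + 1 := by ring
            rw [e] at h6
            exact h6
          have hz2 : q ⁅z, ⁅x, y⁆⁆ = 1 := by
            rw [hid]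
            simp only [map_mul, map_inv, (hq _).2 h1, (hq _).2 h2]
            group
          rw [map_commutatorElement, commutatorElement_eq_one_iff_mul_comm] at hz2
          exact hz2
        intro g hg z hz
        have := hle hg
        rw [Subgroup.mem_comap, Subgroup.mem_centralizer_iff] at this
        have h := this (q z) ⟨z, hz, rfl⟩
        rw [map_commutatorElement, commutatorElement_eq_one_iff_mul_comm]
        exact h
      exact (hq _).1 (hgen g hg z hz)
    exact key (Subgroup.commutator_mem_commutator hg hz)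

theorem comm_mem {i j : ℕ} {x y : G} (hx : x ∈ Gam G i) (hy : y ∈ Gam G j) :
    ⁅x, y⁆ ∈ Gam G (i + j + 1) :=
  comm_le i j (Subgroup.commutator_mem_commutator hx hy)

instance compAddGroup (k : ℕ) : AddGroup (Comp G k) := Additive.addGroup

theorem comp_add_comm (k : ℕ) (a b : Comp G k) : a + b = b + a := by
  induction a using Additive.rec with | ofMul a => ?_
  induction b using Additive.rec with | ofMul b => ?_
  induction a using QuotientGroup.induction_on with | H a => ?_
  induction b using QuotientGroup.induction_on with | H b => ?_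
  change Additive.ofMul (((a * b : Gam G k) : (Gam G k) ⧸ (Gam G (k + 1)).subgroupOf (Gam G k)))
    = Additive.ofMul (((b * a : Gam G k) : (Gam G k) ⧸ (Gam G (k + 1)).subgroupOf (Gam G k)))
  congr 1
  rw [QuotientGroup.eq, Subgroup.mem_subgroupOf]
  have h := comm_mem (i := k) (j := k) (inv_mem b.2) (inv_mem a.2)
  have h2 : ⁅(b : G)⁻¹, (a : G)⁻¹⁆ ∈ Gam G (k + 1) :=
    Subgroup.lowerCentralSeries_antitone _ (by omega) h
  convert h2 using 1
  simp [commutatorElement_def, mul_assoc]

instance compGroup (k : ℕ) : AddCommGroup (Comp G k) := AddCommGroup.mk (comp_add_comm k)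

/-- the class of `g ∈ Γ_{k+1}` in the degree `k+1` component -/
def cl (k : ℕ) (g : G) (hg : g ∈ Gam G k) : Comp G k :=
  Additive.ofMul (QuotientGroup.mk ⟨g, hg⟩)


variable (G)

/-- The graded abelian group `E_0^*(G) = ⨁ Γ_k G / Γ_{k+1} G`; the summand with index `k : ℕ` is
the component of degree `k + 1`. -/
def E0 : Type _ := DirectSum ℕ (Comp G)

noncomputable instance : AddCommGroup (E0 G) := DirectSum.instAddCommGroup (β := Comp G)

variable {G}

/-- the inclusion of the component of degree `k + 1` into `E_0^*(G)` -/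
noncomputable def E0.of (k : ℕ) : Comp G k →+ E0 G := DirectSum.of (Comp G) k

/-- `B` is the bracket of `E_0^*(G)`: it is bi-additive, and for `x ∈ Γ_{i+1} G` and
`y ∈ Γ_{j+1} G` the bracket of the classes of `x` and `y` in degrees `i + 1` and `j + 1` is the class
of the group commutator `⁅x, y⁆` in degree `i + j + 2`. -/
def IsBracket (B : E0 G → E0 G → E0 G) : Prop :=
  (∀ x y z, B (x + y) z = B x z + B y z) ∧ (∀ x y z, B x (y + z) = B x y + B x z) ∧
    ∀ (i j : ℕ) (x y : G) (hx : x ∈ Gam G i) (hy : y ∈ Gam G j),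
      B (E0.of i (cl i x hx)) (E0.of j (cl j y hy)) =
        E0.of (i + j + 1) (cl (i + j + 1) ⁅x, y⁆ (comm_mem hx hy))

end Pool.Agent.H85R2.GrLie
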