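import Pool.Agent.H85R2.GrProofs

/-!
The graded Lie ring of the lower central series of a group.
-/

set_option autoImplicit false

namespace Pool.Agent.H85R2.GrLie

variable {G : Type*} [Group G]

/-- the bracket of `E_0^*(G)` -/
noncomputable def bracket : E0 G → E0 G → E0 G := exists_isBracket.choose

theorem isBracket_bracket : IsBracket (bracket : E0 G → E0 G → E0 G) := exists_isBracket.choose_spec

/-- The Lie ring structure of `E_0^*(G)`. -/
noncomputable instance : LieRing (E0 G) where
  bracket := bracket
  add_lie := isBracket_bracket.1
  lie_add := isBracket_bracket.2.1
  lie_self := isBracket_bracket.self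
  leibniz_lie := isBracket_bracket.leibniz

end Pool.Agent.H85R2.GrLie
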