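import Pool.Agent.H85R2.GrLie

set_option autoImplicit false

namespace Pool.Agent.H85R2.GrLie

variable {G : Type*} [Group G]

theorem E0.lie_of (i j : ℕ) (x : Comp G i) (y : Comp G j) :
    ⁅E0.of i x, E0.of j y⁆ = E0.of (i + j + 1) (br i j x y) := by
  change bracket _ _ = _
  rw [isBracket_bracket.eq_brE]
  exact brE_inc i j x y

theorem E0.of_injective (k : ℕ) : Function.Injective (E0.of (G := G) k) :=
  DirectSum.of_injective k

end Pool.Agent.H85R2.GrLie
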