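import Pool.Agent.H85R2.GrDefs

/-!
Construction of the bracket on the graded pieces of the lower central series of a group.
-/

set_option autoImplicit false

open scoped commutatorElement DirectSum

namespace Pool.Agent.H85R2.GrLie

variable {G : Type*} [Group G]

theorem cl_mul (k : ℕ) (g h : G) (hg : g ∈ Gam G k) (hh : h ∈ Gam G k) :
    cl k (g * h) (mul_mem hg hh) = cl k g hg + cl k h hh := rfl

theorem cl_inv (k : ℕ) (g : G) (hg : g ∈ Gam G k) :
    cl k g⁻¹ (inv_mem hg) = - cl k g hg := rfl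

theorem cl_eq_iff (k : ℕ) (g h : G) (hg : g ∈ Gam G k) (hh : h ∈ Gam G k) :
    cl k g hg = cl k h hh ↔ g⁻¹ * h ∈ Gam G (k + 1) := by
  have h : cl k g hg = cl k h hh ↔ ((⟨g, hg⟩ : Gam G k) : (Gam G k) ⧸ (Gam G (k + 1)).subgroupOf (Gam G k))
      = ((⟨h, hh⟩ : Gam G k) : (Gam G k) ⧸ (Gam G (k + 1)).subgroupOf (Gam G k)) :=
    Additive.ofMul.injective.eq_iff
  rw [h, QuotientGroup.eq, Subgroup.mem_subgroupOf]
  rfl

theorem cl_eq_zero_iff (k : ℕ) (g : G) (hg : g ∈ Gam G k) :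
    cl k g hg = 0 ↔ g ∈ Gam G (k + 1) := by
  have h : (0 : Comp G k) = cl k 1 (one_mem _) := rfl
  rw [h, cl_eq_iff]
  simp

theorem cl_surj (k : ℕ) (x : Comp G k) : ∃ g hg, cl k g hg = x := by
  induction x using Additive.rec with | ofMul a => ?_
  induction a using QuotientGroup.induction_on with | H a => ?_
  exact ⟨a.1, a.2, rfl⟩

/-- bracket on components, as a function -/
theorem cl_comm_congr {i j : ℕ} {x x' y y' : G} (hx : x ∈ Gam G i) (hx' : x' ∈ Gam G i)
    (hy : y ∈ Gam G j) (hy' : y' ∈ Gam G j) (h1 : cl i x hx = cl i x' hx')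
    (h2 : cl j y hy = cl j y' hy') :
    cl (i + j + 1) ⁅x, y⁆ (comm_mem hx hy) = cl (i + j + 1) ⁅x', y'⁆ (comm_mem hx' hy') := by
  rw [cl_eq_iff] at h1 h2 ⊢
  -- x' = x a, y' = y b
  obtain ⟨a, ha⟩ : ∃ a, x' = x * a := ⟨x⁻¹ * x', by group⟩
  obtain ⟨b, hb⟩ : ∃ b, y' = y * b := ⟨y⁻¹ * y', by group⟩
  have ha' : a ∈ Gam G (i + 1) := by rw [ha] at h1; simpa using h1
  have hb' : b ∈ Gam G (j + 1) := by rw [hb] at h2; simpa using h2
  subst ha hb
  have e : ⁅x * a, y * b⁆ = x * (⁅a, y⁆ * (y * ⁅a, b⁆ * y⁻¹)) * x⁻¹ * (⁅x, y⁆ * (y * ⁅x, b⁆ * y⁻¹)) := by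
    simp [commutatorElement_def, mul_assoc]
  have m1 : ⁅a, y⁆ ∈ Gam G (i + j + 1 + 1) := by
    have := comm_mem ha' hy
    have e : i + 1 + j + 1 = i + j + 1 + 1 := by ring
    rwa [e] at this
  have m2 : ⁅a, b⁆ ∈ Gam G (i + j + 1 + 1) := by
    have := comm_mem ha' hb'
    exact Subgroup.lowerCentralSeries_antitone _ (by omega) this
  have m3 : ⁅x, b⁆ ∈ Gam G (i + j + 1 + 1) := by
    have := comm_mem hx hb'
    exact Subgroup.lowerCentralSeries_antitone _ (by omega) this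
  rw [e]
  have hN : (Gam G (i + j + 1 + 1)).Normal := inferInstance
  have m4 : x * (⁅a, y⁆ * (y * ⁅a, b⁆ * y⁻¹)) * x⁻¹ ∈ Gam G (i + j + 1 + 1) :=
    hN.conj_mem _ (mul_mem m1 (hN.conj_mem _ m2 _)) _
  have m5 : y * ⁅x, b⁆ * y⁻¹ ∈ Gam G (i + j + 1 + 1) := hN.conj_mem _ m3 _
  have e2 : ⁅x, y⁆⁻¹ * (x * (⁅a, y⁆ * (y * ⁅a, b⁆ * y⁻¹)) * x⁻¹ * (⁅x, y⁆ * (y * ⁅x, b⁆ * y⁻¹)))
      = (⁅x, y⁆⁻¹ * (x * (⁅a, y⁆ * (y * ⁅a, b⁆ * y⁻¹)) * x⁻¹) * (⁅x, y⁆⁻¹)⁻¹) * (y * ⁅x, b⁆ * y⁻¹) := by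
    group
  rw [e2]
  exact mul_mem (hN.conj_mem _ m4 _) m5

/-- the bracket `Γ_{i+1}/Γ_{i+2} × Γ_{j+1}/Γ_{j+2} → Γ_{i+j+2}/Γ_{i+j+3}` induced by the group
commutator -/
noncomputable def br (i j : ℕ) (x : Comp G i) (y : Comp G j) : Comp G (i + j + 1) :=
  cl (i + j + 1) ⁅(cl_surj i x).choose, (cl_surj j y).choose⁆
    (comm_mem (cl_surj i x).choose_spec.choose (cl_surj j y).choose_spec.choose)

theorem br_cl {i j : ℕ} {x y : G} (hx : x ∈ Gam G i) (hy : y ∈ Gam G j) :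
    br i j (cl i x hx) (cl j y hy) = cl (i + j + 1) ⁅x, y⁆ (comm_mem hx hy) :=
  cl_comm_congr _ _ _ _ (cl_surj i (cl i x hx)).choose_spec.choose_spec
    (cl_surj j (cl j y hy)).choose_spec.choose_spec

theorem cl_conj (k : ℕ) (g a : G) (hg : g ∈ Gam G k) :
    cl k (a * g * a⁻¹) ((gam_normal k).conj_mem _ hg a) = cl k g hg := by
  rw [cl_eq_iff]
  have h : ⁅g⁻¹, a⁆ ∈ Gam G (k + 1) := by
    have := Subgroup.commutator_mem_commutator (inv_mem hg) (Subgroup.mem_top a)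
    rwa [← Subgroup.lowerCentralSeries_succ] at this
  have h2 := inv_mem h
  convert h2 using 1
  simp [commutatorElement_def, mul_assoc]

theorem br_add_left (i j : ℕ) (x x' : Comp G i) (y : Comp G j) :
    br i j (x + x') y = br i j x y + br i j x' y := by
  obtain ⟨x, hx, rfl⟩ := cl_surj i x
  obtain ⟨x', hx', rfl⟩ := cl_surj i x'
  obtain ⟨y, hy, rfl⟩ := cl_surj j y
  rw [← cl_mul, br_cl, br_cl, br_cl, add_comm (cl _ ⁅x, y⁆ _), ← cl_conj _ ⁅x', y⁆ x, ← cl_mul]
  congr 1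
  simp [commutatorElement_def, mul_assoc]

theorem br_add_right (i j : ℕ) (x : Comp G i) (y y' : Comp G j) :
    br i j x (y + y') = br i j x y + br i j x y' := by
  obtain ⟨x, hx, rfl⟩ := cl_surj i x
  obtain ⟨y, hy, rfl⟩ := cl_surj j y
  obtain ⟨y', hy', rfl⟩ := cl_surj j y'
  rw [← cl_mul, br_cl, br_cl, br_cl, ← cl_conj _ ⁅x, y'⁆ y, ← cl_mul]
  congr 1
  simp [commutatorElement_def, mul_assoc]

/-- the bracket as a bi-additive map -/
noncomputable def brHom (i j : ℕ) : Comp G i →+ Comp G j →+ Comp G (i + j + 1) :=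
  AddMonoidHom.mk' (fun x => AddMonoidHom.mk' (fun y => br i j x y) (br_add_right i j x))
    (fun x x' => by ext y; exact br_add_left i j x x' y)

theorem brHom_apply (i j : ℕ) (x : Comp G i) (y : Comp G j) : brHom i j x y = br i j x y := rfl

variable (G)

/-- auxiliary: the direct sum of the components -/
abbrev DS : Type _ := ⨁ k : ℕ, Comp G k

variable {G}

/-- inclusion of the component with index `k` (degree `k + 1`) -/
noncomputable def inc (k : ℕ) : Comp G k →+ DS G := DirectSum.of (Comp G) k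

theorem E0_induction {p : DS G → Prop} (x : DS G) (h0 : p 0)
    (h1 : ∀ k (a : Comp G k), p (inc k a)) (h2 : ∀ x y, p x → p y → p (x + y)) : p x :=
  DirectSum.induction_on (motive := p) x h0 h1 h2

/-- the bracket with a fixed element of a component, with values in the direct sum -/
noncomputable def brK (i j : ℕ) (x : Comp G i) : Comp G j →+ DS G :=
  (inc (i + j + 1)).comp (brHom i j x)

theorem brK_add (i j : ℕ) (x y : Comp G i) : brK i j (x + y) = brK i j x + brK i j y := by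
  ext z
  simp [brK, map_add]

/-- the bracket of components, with values in the direct sum -/
noncomputable def brL (i j : ℕ) : Comp G i →+ Comp G j →+ DS G :=
  AddMonoidHom.mk' (brK i j) (brK_add i j)

/-- the bracket of a component with the direct sum -/
noncomputable def brR (i : ℕ) : Comp G i →+ DS G →+ DS G :=
  AddMonoidHom.flip (DirectSum.toAddMonoid fun j => AddMonoidHom.flip (brL i j))

/-- the bracket of `E_0^*(G)` as a bi-additive map -/
noncomputable def brE : DS G →+ DS G →+ DS G := DirectSum.toAddMonoid brR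

theorem brE_inc (i j : ℕ) (x : Comp G i) (y : Comp G j) :
    brE (inc i x) (inc j y) = inc (i + j + 1) (br i j x y) := by
  unfold brE inc
  rw [DirectSum.toAddMonoid_of]
  unfold brR
  rw [AddMonoidHom.flip_apply, DirectSum.toAddMonoid_of]
  rfl

theorem inc_cl_congr {k l : ℕ} (h : k = l) (g : G) (hg : g ∈ Gam G k) (hg' : g ∈ Gam G l) :
    inc k (cl k g hg) = inc l (cl l g hg') := by
  subst h; rfl

theorem brE_antisymm (x y : DS G) : brE x y = - brE y x := by
  induction x using E0_induction with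
  | h0 => simp
  | h2 x x' hx hx' => simp [map_add, AddMonoidHom.add_apply, hx, hx', add_comm]
  | h1 i a =>
    induction y using E0_induction with
    | h0 => simp
    | h2 y y' hy hy' => simp [map_add, AddMonoidHom.add_apply, hy, hy', add_comm]
    | h1 j b =>
      obtain ⟨a, ha, rfl⟩ := cl_surj i a
      obtain ⟨b, hb, rfl⟩ := cl_surj j b
      rw [brE_inc, brE_inc, br_cl, br_cl, ← map_neg, ← cl_inv]
      have h : ⁅a, b⁆ = ⁅b, a⁆⁻¹ := (commutatorElement_inv b a).symm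
      have e : i + j + 1 = j + i + 1 := by ring
      rw [inc_cl_congr e _ _ (by rw [← e]; exact comm_mem ha hb)]
      congr 2

theorem brE_add_left (x y z : DS G) : brE (x + y) z = brE x z + brE y z := by
  rw [map_add, AddMonoidHom.add_apply]

theorem brE_add_right (x y z : DS G) : brE x (y + z) = brE x y + brE x z := map_add _ _ _

theorem brE_self (x : DS G) : brE x x = 0 := by
  induction x using E0_induction with
  | h0 => simp
  | h1 i a =>
    obtain ⟨a, ha, rfl⟩ := cl_surj i a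
    rw [brE_inc, br_cl]
    have : cl (i + i + 1) ⁅a, a⁆ (comm_mem ha ha) = 0 := by
      rw [cl_eq_zero_iff]; simp
    rw [this, map_zero]
  | h2 x y hx hy =>
    simp only [map_add, AddMonoidHom.add_apply, hx, hy]
    rw [brE_antisymm x y]
    abel

theorem brE_jacobi (x y z : DS G) :
    brE x (brE y z) = brE (brE x y) z + brE y (brE x z) := by
  induction x using E0_induction with
  | h0 => simp
  | h2 x x' hx hx' => simp only [map_add, AddMonoidHom.add_apply, hx, hx']; abel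
  | h1 i a =>
  induction y using E0_induction with
  | h0 => simp
  | h2 y y' hx hx' => simp only [map_add, AddMonoidHom.add_apply, hx, hx']; abel
  | h1 j b =>
  induction z using E0_induction with
  | h0 => simp
  | h2 z z' hx hx' => simp only [map_add, hx, hx']; abel
  | h1 k c =>
  obtain ⟨a, ha, rfl⟩ := cl_surj i a
  obtain ⟨b, hb, rfl⟩ := cl_surj j b
  obtain ⟨c, hc, rfl⟩ := cl_surj k c
  -- [a,[b,c]] = [[a,b],c] + [b,[a,c]] ; use Hall-Witt with z := a, x := b, y := c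
  have hid : ⁅a, ⁅b, c⁆⁆ = b * (a * ⁅c, ⁅a⁻¹, b⁻¹⁆⁆⁻¹ * a⁻¹ * (c * ⁅b⁻¹, ⁅c⁻¹, a⁆⁆⁻¹ * c⁻¹)) * b⁻¹ := by
    simp [commutatorElement_def, mul_assoc]
  set N := i + j + k + 1 + 1 with hN
  have t1 : ∀ (u v w : G) (p q r : ℕ), u ∈ Gam G p → v ∈ Gam G q → w ∈ Gam G r →
      p + q + r + 1 + 1 = N → ⁅u, ⁅v, w⁆⁆ ∈ Gam G N := by
    intro u v w p q r hu hv hw hpq
    have := comm_mem hu (comm_mem hv hw)
    have e : p + (q + r + 1) + 1 = N := by omega
    rwa [e] at this
  have t2 : ∀ (u v w : G) (p q r : ℕ), u ∈ Gam G p → v ∈ Gam G q → w ∈ Gam G r →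
      p + q + r + 1 + 1 = N → ⁅⁅u, v⁆, w⁆ ∈ Gam G N := by
    intro u v w p q r hu hv hw hpq
    have := comm_mem (comm_mem hu hv) hw
    have e : (p + q + 1) + r + 1 = N := by omega
    rwa [e] at this
  -- general formula for triple brackets at level N
  have T : ∀ (u v w : G) (p q r : ℕ) (hu : u ∈ Gam G p) (hv : v ∈ Gam G q) (hw : w ∈ Gam G r)
      (h : p + q + r + 1 + 1 = N), brE (inc p (cl p u hu)) (brE (inc q (cl q v hv))
        (inc r (cl r w hw))) = inc N (cl N ⁅u, ⁅v, w⁆⁆ (t1 u v w p q r hu hv hw h)) := by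
    intro u v w p q r hu hv hw h
    rw [brE_inc, br_cl, brE_inc, br_cl]
    exact inc_cl_congr (by omega) _ _ _
  have T' : ∀ (u v w : G) (p q r : ℕ) (hu : u ∈ Gam G p) (hv : v ∈ Gam G q) (hw : w ∈ Gam G r)
      (h : p + q + r + 1 + 1 = N), brE (brE (inc p (cl p u hu)) (inc q (cl q v hv)))
        (inc r (cl r w hw)) = inc N (cl N ⁅⁅u, v⁆, w⁆ (t2 u v w p q r hu hv hw h)) := by
    intro u v w p q r hu hv hw h
    rw [brE_inc, br_cl, brE_inc, br_cl]
    exact inc_cl_congr (by omega) _ _ _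
  have hna : a⁻¹ ∈ Gam G i := inv_mem ha
  have hnb : b⁻¹ ∈ Gam G j := inv_mem hb
  have hnc : c⁻¹ ∈ Gam G k := inv_mem hc
  have m1 : ⁅c, ⁅a⁻¹, b⁻¹⁆⁆ ∈ Gam G N := t1 _ _ _ k i j hc hna hnb (by omega)
  have m2 : ⁅b⁻¹, ⁅c⁻¹, a⁆⁆ ∈ Gam G N := t1 _ _ _ j k i hnb hnc ha (by omega)
  have c1 : cl N ⁅a, ⁅b, c⁆⁆ (t1 a b c i j k ha hb hc (by omega))
      = - cl N ⁅c, ⁅a⁻¹, b⁻¹⁆⁆ m1 + - cl N ⁅b⁻¹, ⁅c⁻¹, a⁆⁆ m2 := by
    have hn := gam_normal (G := G) N
    have e1 : cl N ⁅a, ⁅b, c⁆⁆ (t1 a b c i j k ha hb hc (by omega))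
        = cl N (b * (a * ⁅c, ⁅a⁻¹, b⁻¹⁆⁆⁻¹ * a⁻¹ * (c * ⁅b⁻¹, ⁅c⁻¹, a⁆⁆⁻¹ * c⁻¹)) * b⁻¹)
          (hn.conj_mem _ (mul_mem (hn.conj_mem _ (inv_mem m1) _) (hn.conj_mem _ (inv_mem m2) _)) _) := by
      congr 1
    rw [e1, cl_conj N _ b (mul_mem (hn.conj_mem _ (inv_mem m1) _) (hn.conj_mem _ (inv_mem m2) _)),
      cl_mul N _ _ (hn.conj_mem _ (inv_mem m1) _) (hn.conj_mem _ (inv_mem m2) _),
      cl_conj N _ a (inv_mem m1), cl_conj N _ c (inv_mem m2), cl_inv, cl_inv]
  rw [T a b c i j k ha hb hc (by omega), c1, map_add, map_neg, map_neg,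
    ← T c a⁻¹ b⁻¹ k i j hc hna hnb (by omega), ← T b⁻¹ c⁻¹ a j k i hnb hnc ha (by omega),
    cl_inv i a ha, cl_inv j b hb, cl_inv k c hc]
  simp only [map_neg, AddMonoidHom.neg_apply, neg_neg]
  rw [brE_antisymm (inc k (cl k c hc)) (brE (inc i (cl i a ha)) (inc j (cl j b hb))), neg_neg,
    brE_antisymm (inc k (cl k c hc)) (inc i (cl i a ha))]
  simp only [map_neg, neg_neg]


theorem isBracket_brE : IsBracket (fun x y => (brE (G := G) x y : DS G)) := by
  refine ⟨fun x y z => brE_add_left (G := G) x y z, fun x y z => brE_add_right (G := G) x y z, ?_⟩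
  intro i j x y hx hy
  have h := brE_inc i j (cl i x hx) (cl j y hy)
  rw [br_cl] at h
  exact h

theorem isBracket_unique (B B' : E0 G → E0 G → E0 G) (h : IsBracket B) (h' : IsBracket B') :
    B = B' := by
  obtain ⟨h1, h2, h3⟩ := h
  obtain ⟨h1', h2', h3'⟩ := h'
  let C : E0 G →+ E0 G →+ E0 G := AddMonoidHom.mk' (fun x => AddMonoidHom.mk' (B x) (h2 x))
    (fun x y => by ext z; exact h1 x y z)
  let C' : E0 G →+ E0 G →+ E0 G := AddMonoidHom.mk' (fun x => AddMonoidHom.mk' (B' x) (h2' x))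
    (fun x y => by ext z; exact h1' x y z)
  have key : ∀ x y : E0 G, C x y = C' x y := by
    intro x y
    induction x using E0_induction with
    | h0 => exact ((congrArg (fun f => f y) (map_zero C)).trans
        (congrArg (fun f => f y) (map_zero C')).symm : C 0 y = C' 0 y)
    | h2 x x' hx hx' =>
      have e1 : C (x + x' : E0 G) y = C x y + C x' y := h1 x x' y
      have e2 : C' (x + x' : E0 G) y = C' x y + C' x' y := h1' x x' y
      exact e1.trans ((congrArg₂ (· + ·) hx hx').trans e2.symm)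
    | h1 i a =>
      induction y using E0_induction with
      | h0 => exact (map_zero (C (inc i a))).trans (map_zero (C' (inc i a))).symm
      | h2 y y' hy hy' =>
        have e1 : C (inc i a) (y + y' : E0 G) = C (inc i a) y + C (inc i a) y' := h2 _ y y'
        have e2 : C' (inc i a) (y + y' : E0 G) = C' (inc i a) y + C' (inc i a) y' := h2' _ y y'
        exact e1.trans ((congrArg₂ (· + ·) hy hy').trans e2.symm)
      | h1 j b =>
        obtain ⟨a, ha, rfl⟩ := cl_surj i a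
        obtain ⟨b, hb, rfl⟩ := cl_surj j b
        exact (h3 i j a b ha hb).trans (h3' i j a b ha hb).symm
  funext x y
  exact key x y

theorem exists_isBracket : ∃ B : E0 G → E0 G → E0 G, IsBracket B := ⟨_, isBracket_brE⟩

theorem IsBracket.eq_brE {B : E0 G → E0 G → E0 G} (h : IsBracket B) :
    B = fun x y => (brE (G := G) x y : DS G) := isBracket_unique _ _ h isBracket_brE

theorem IsBracket.self {B : E0 G → E0 G → E0 G} (h : IsBracket B) (x : E0 G) : B x x = 0 := by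
  rw [h.eq_brE]; exact brE_self (G := G) x

theorem IsBracket.leibniz {B : E0 G → E0 G → E0 G} (h : IsBracket B) (x y z : E0 G) :
    B x (B y z) = B (B x y) z + B y (B x z) := by
  rw [h.eq_brE]; exact brE_jacobi (G := G) x y z


end Pool.Agent.H85R2.GrLie
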