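import Pool.Agent.H85R2.QuadDefs
import Pool.Agent.H85R2.GrLie2

/-!
The group `IA_3` does not have a quadratically presented graded Lie ring.
-/

set_option autoImplicit false

open scoped commutatorElement DirectSum

namespace Pool.Agent.H85R2.GrLie

/-- Magnus coefficients `(e1, e2, e3, e12, e32, e22, e322)`. -/
@[ext] structure H7 where
  a1 : ℤ
  a2 : ℤ
  a3 : ℤ
  b12 : ℤ
  b32 : ℤ
  b22 : ℤ
  c : ℤ

namespace H7

instance : Mul H7 := ⟨fun x y => ⟨x.a1 + y.a1, x.a2 + y.a2, x.a3 + y.a3, x.b12 + y.b12 + x.a1 * y.a2,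
    x.b32 + y.b32 + x.a3 * y.a2, x.b22 + y.b22 + x.a2 * y.a2,
    x.c + y.c + x.a3 * y.b22 + x.b32 * y.a2⟩⟩
instance : One H7 := ⟨⟨0, 0, 0, 0, 0, 0, 0⟩⟩
instance : Inv H7 := ⟨fun x => ⟨-x.a1, -x.a2, -x.a3, -x.b12 + x.a1 * x.a2, -x.b32 + x.a3 * x.a2,
  -x.b22 + x.a2 * x.a2, -x.c + x.a3 * x.b22 + x.b32 * x.a2 - x.a3 * x.a2 * x.a2⟩⟩

@[simp] theorem mul_a1 (x y : H7) : (x * y).a1 = x.a1 + y.a1 := rfl
@[simp] theorem mul_a2 (x y : H7) : (x * y).a2 = x.a2 + y.a2 := rfl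
@[simp] theorem mul_a3 (x y : H7) : (x * y).a3 = x.a3 + y.a3 := rfl
@[simp] theorem mul_b12 (x y : H7) : (x * y).b12 = x.b12 + y.b12 + x.a1 * y.a2 := rfl
@[simp] theorem mul_b32 (x y : H7) : (x * y).b32 = x.b32 + y.b32 + x.a3 * y.a2 := rfl
@[simp] theorem mul_b22 (x y : H7) : (x * y).b22 = x.b22 + y.b22 + x.a2 * y.a2 := rfl
@[simp] theorem mul_c (x y : H7) : (x * y).c = x.c + y.c + x.a3 * y.b22 + x.b32 * y.a2 := rfl
@[simp] theorem one_a1 : (1 : H7).a1 = 0 := rfl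
@[simp] theorem one_a2 : (1 : H7).a2 = 0 := rfl
@[simp] theorem one_a3 : (1 : H7).a3 = 0 := rfl
@[simp] theorem one_b12 : (1 : H7).b12 = 0 := rfl
@[simp] theorem one_b32 : (1 : H7).b32 = 0 := rfl
@[simp] theorem one_b22 : (1 : H7).b22 = 0 := rfl
@[simp] theorem one_c : (1 : H7).c = 0 := rfl
@[simp] theorem inv_a1 (x : H7) : (x⁻¹).a1 = -x.a1 := rfl
@[simp] theorem inv_a2 (x : H7) : (x⁻¹).a2 = -x.a2 := rfl
@[simp] theorem inv_a3 (x : H7) : (x⁻¹).a3 = -x.a3 := rfl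
@[simp] theorem inv_b12 (x : H7) : (x⁻¹).b12 = -x.b12 + x.a1 * x.a2 := rfl
@[simp] theorem inv_b32 (x : H7) : (x⁻¹).b32 = -x.b32 + x.a3 * x.a2 := rfl
@[simp] theorem inv_b22 (x : H7) : (x⁻¹).b22 = -x.b22 + x.a2 * x.a2 := rfl
@[simp] theorem inv_c (x : H7) :
    (x⁻¹).c = -x.c + x.a3 * x.b22 + x.b32 * x.a2 - x.a3 * x.a2 * x.a2 := rfl

instance : Group H7 where
  mul_assoc x y z := by ext <;> simp <;> ring
  one_mul x := by ext <;> simp
  mul_one x := by ext <;> simp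
  inv_mul_cancel x := by ext <;> simp <;> ring

end H7

/-- the group of `(s3, s2, s13, s22, s14)` -/
@[ext] structure U5 where
  s3 : ℤ
  s2 : ℤ
  t : ℤ
  b : ℤ
  c : ℤ

namespace U5

instance : Mul U5 := ⟨fun x y => ⟨x.s3 + y.s3, x.s2 + y.s2, x.t + y.t + x.s3 * y.s2,
    x.b + y.b + x.s2 * y.s2, x.c + y.c + x.s3 * y.b + x.t * y.s2⟩⟩
instance : One U5 := ⟨⟨0, 0, 0, 0, 0⟩⟩
instance : Inv U5 := ⟨fun x => ⟨-x.s3, -x.s2, -x.t + x.s3 * x.s2, -x.b + x.s2 * x.s2,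
  -x.c + x.s3 * x.b + x.t * x.s2 - x.s3 * x.s2 * x.s2⟩⟩

@[simp] theorem mul_s3 (x y : U5) : (x * y).s3 = x.s3 + y.s3 := rfl
@[simp] theorem mul_s2 (x y : U5) : (x * y).s2 = x.s2 + y.s2 := rfl
@[simp] theorem mul_t (x y : U5) : (x * y).t = x.t + y.t + x.s3 * y.s2 := rfl
@[simp] theorem mul_b (x y : U5) : (x * y).b = x.b + y.b + x.s2 * y.s2 := rfl
@[simp] theorem mul_c (x y : U5) : (x * y).c = x.c + y.c + x.s3 * y.b + x.t * y.s2 := rfl
@[simp] theorem one_s3 : (1 : U5).s3 = 0 := rfl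
@[simp] theorem one_s2 : (1 : U5).s2 = 0 := rfl
@[simp] theorem one_t : (1 : U5).t = 0 := rfl
@[simp] theorem one_b : (1 : U5).b = 0 := rfl
@[simp] theorem one_c : (1 : U5).c = 0 := rfl
@[simp] theorem inv_s3 (x : U5) : (x⁻¹).s3 = -x.s3 := rfl
@[simp] theorem inv_s2 (x : U5) : (x⁻¹).s2 = -x.s2 := rfl
@[simp] theorem inv_t (x : U5) : (x⁻¹).t = -x.t + x.s3 * x.s2 := rfl
@[simp] theorem inv_b (x : U5) : (x⁻¹).b = -x.b + x.s2 * x.s2 := rfl
@[simp] theorem inv_c (x : U5) :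
    (x⁻¹).c = -x.c + x.s3 * x.b + x.t * x.s2 - x.s3 * x.s2 * x.s2 := rfl

instance : Group U5 where
  mul_assoc x y z := by ext <;> simp <;> ring
  one_mul x := by ext <;> simp
  mul_one x := by ext <;> simp
  inv_mul_cancel x := by ext <;> simp <;> ring

end U5

/-- the family of homomorphisms `H7 → U5` -/
def Xi (m c p q b r : ℤ) : H7 →* U5 where
  toFun x := ⟨x.a3, x.a2, x.b32 - m * x.a1 + p * x.a2 + b * x.a3, x.b22,
    x.c + c * x.a1 + q * x.a2 + r * x.a3 - m * x.b12 + p * x.b22 + b * x.b32⟩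
  map_one' := by ext <;> simp
  map_mul' x y := by ext <;> simp <;> ring

/-- the homomorphisms recording `b12` (and deforming) -/
@[ext] structure U3 where
  s : ℤ
  t : ℤ
  b : ℤ

namespace U3

instance : Mul U3 := ⟨fun x y => ⟨x.s + y.s, x.t + y.t, x.b + y.b + x.s * y.t⟩⟩
instance : One U3 := ⟨⟨0, 0, 0⟩⟩
instance : Inv U3 := ⟨fun x => ⟨-x.s, -x.t, -x.b + x.s * x.t⟩⟩

@[simp] theorem mul_s (x y : U3) : (x * y).s = x.s + y.s := rfl
@[simp] theorem mul_t (x y : U3) : (x * y).t = x.t + y.t := rfl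
@[simp] theorem mul_b (x y : U3) : (x * y).b = x.b + y.b + x.s * y.t := rfl
@[simp] theorem one_s : (1 : U3).s = 0 := rfl
@[simp] theorem one_t : (1 : U3).t = 0 := rfl
@[simp] theorem one_b : (1 : U3).b = 0 := rfl
@[simp] theorem inv_s (x : U3) : (x⁻¹).s = -x.s := rfl
@[simp] theorem inv_t (x : U3) : (x⁻¹).t = -x.t := rfl
@[simp] theorem inv_b (x : U3) : (x⁻¹).b = -x.b + x.s * x.t := rfl

instance : Group U3 where
  mul_assoc x y z := by ext <;> simp <;> ring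
  one_mul x := by ext <;> simp
  mul_one x := by ext <;> simp
  inv_mul_cancel x := by ext <;> simp

end U3

/-- the family of homomorphisms recording `b12` -/
def Xi12 (p q r : ℤ) : H7 →* U3 where
  toFun x := ⟨x.a1, x.a2, x.b12 + p * x.a1 + q * x.a2 + r * x.a3⟩
  map_one' := by ext <;> simp
  map_mul' x y := by ext <;> simp <;> ring

/-- the family of homomorphisms recording `b32` -/
def Xi32 (p q r : ℤ) : H7 →* U3 where
  toFun x := ⟨x.a3, x.a2, x.b32 + p * x.a1 + q * x.a2 + r * x.a3⟩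
  map_one' := by ext <;> simp
  map_mul' x y := by ext <;> simp <;> ring

/-- the abelian quotient of `H7` -/
@[ext] structure Q4 where
  a1 : ℤ
  a2 : ℤ
  a3 : ℤ
  b : ℤ

namespace Q4

instance : Mul Q4 := ⟨fun x y => ⟨x.a1 + y.a1, x.a2 + y.a2, x.a3 + y.a3,
  x.b + y.b + x.a2 * y.a2⟩⟩
instance : One Q4 := ⟨⟨0, 0, 0, 0⟩⟩
instance : Inv Q4 := ⟨fun x => ⟨-x.a1, -x.a2, -x.a3, -x.b + x.a2 * x.a2⟩⟩

@[simp] theorem mul_a1 (x y : Q4) : (x * y).a1 = x.a1 + y.a1 := rfl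
@[simp] theorem mul_a2 (x y : Q4) : (x * y).a2 = x.a2 + y.a2 := rfl
@[simp] theorem mul_a3 (x y : Q4) : (x * y).a3 = x.a3 + y.a3 := rfl
@[simp] theorem mul_b (x y : Q4) : (x * y).b = x.b + y.b + x.a2 * y.a2 := rfl
@[simp] theorem one_a1 : (1 : Q4).a1 = 0 := rfl
@[simp] theorem one_a2 : (1 : Q4).a2 = 0 := rfl
@[simp] theorem one_a3 : (1 : Q4).a3 = 0 := rfl
@[simp] theorem one_b : (1 : Q4).b = 0 := rfl
@[simp] theorem inv_a1 (x : Q4) : (x⁻¹).a1 = -x.a1 := rfl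
@[simp] theorem inv_a2 (x : Q4) : (x⁻¹).a2 = -x.a2 := rfl
@[simp] theorem inv_a3 (x : Q4) : (x⁻¹).a3 = -x.a3 := rfl
@[simp] theorem inv_b (x : Q4) : (x⁻¹).b = -x.b + x.a2 * x.a2 := rfl

instance : CommGroup Q4 where
  mul_assoc x y z := by ext <;> simp <;> ring
  one_mul x := by ext <;> simp
  mul_one x := by ext <;> simp
  inv_mul_cancel x := by ext <;> simp
  mul_comm x y := by ext <;> simp <;> ring

end Q4

/-- projection `H7 → Q4` -/
def toQ : H7 →* Q4 where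
  toFun x := ⟨x.a1, x.a2, x.a3, x.b22⟩
  map_one' := by ext <;> simp
  map_mul' x y := by ext <;> simp

/-- the homomorphism of Magnus coefficients -/
def lam : FreeGroup (Fin 3) →* H7 :=
  FreeGroup.lift ![⟨1, 0, 0, 0, 0, 0, 0⟩, ⟨0, 1, 0, 0, 0, 0, 0⟩, ⟨0, 0, 1, 0, 0, 0, 0⟩]

theorem lam_0 : lam (FreeGroup.of 0) = ⟨1, 0, 0, 0, 0, 0, 0⟩ := by simp [lam]
theorem lam_1 : lam (FreeGroup.of 1) = ⟨0, 1, 0, 0, 0, 0, 0⟩ := by simp [lam]
theorem lam_2 : lam (FreeGroup.of 2) = ⟨0, 0, 1, 0, 0, 0, 0⟩ := by simp [lam]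

theorem toQ_lam (g : IA 3) (w : FreeGroup (Fin 3)) : toQ (lam (g.1 w)) = toQ (lam w) := by
  have h := g.2 w
  have h2 : ∀ w, toQ (lam w) = Abelianization.lift (toQ.comp lam) (Abelianization.of w) := by
    intro w; simp
  rw [h2, h2, h]

/-- `lam (g x1)` -/
theorem lam_g0 (g : IA 3) : (lam (g.1 (FreeGroup.of 0))).a1 = 1 ∧
    (lam (g.1 (FreeGroup.of 0))).a2 = 0 ∧ (lam (g.1 (FreeGroup.of 0))).a3 = 0 ∧
    (lam (g.1 (FreeGroup.of 0))).b22 = 0 := by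
  have h := toQ_lam g (FreeGroup.of 0)
  rw [lam_0] at h
  have := Q4.ext_iff.1 h
  exact this

theorem lam_g1 (g : IA 3) : (lam (g.1 (FreeGroup.of 1))).a1 = 0 ∧
    (lam (g.1 (FreeGroup.of 1))).a2 = 1 ∧ (lam (g.1 (FreeGroup.of 1))).a3 = 0 ∧
    (lam (g.1 (FreeGroup.of 1))).b22 = 0 := by
  have h := toQ_lam g (FreeGroup.of 1)
  rw [lam_1] at h
  have := Q4.ext_iff.1 h
  exact this

theorem lam_g2 (g : IA 3) : (lam (g.1 (FreeGroup.of 2))).a1 = 0 ∧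
    (lam (g.1 (FreeGroup.of 2))).a2 = 0 ∧ (lam (g.1 (FreeGroup.of 2))).a3 = 1 ∧
    (lam (g.1 (FreeGroup.of 2))).b22 = 0 := by
  have h := toQ_lam g (FreeGroup.of 2)
  rw [lam_2] at h
  have := Q4.ext_iff.1 h
  exact this

/-- coordinates on `IA_3` -/
def mu (g : IA 3) : ℤ := -(lam (g.1 (FreeGroup.of 0))).b32
def al (g : IA 3) : ℤ := (lam (g.1 (FreeGroup.of 0))).b12
def be (g : IA 3) : ℤ := (lam (g.1 (FreeGroup.of 2))).b32
def de (g : IA 3) : ℤ := -(lam (g.1 (FreeGroup.of 0))).c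

theorem hom_ext3 {H : Type*} [Group H] (f g : FreeGroup (Fin 3) →* H)
    (h0 : f (FreeGroup.of 0) = g (FreeGroup.of 0)) (h1 : f (FreeGroup.of 1) = g (FreeGroup.of 1))
    (h2 : f (FreeGroup.of 2) = g (FreeGroup.of 2)) : f = g := by
  apply FreeGroup.ext_hom
  intro i
  fin_cases i
  · exact h0
  · exact h1
  · exact h2

theorem key5 (g : IA 3) (w : FreeGroup (Fin 3)) :
    Xi 0 0 0 0 0 0 (lam (g.1 w)) =
      Xi (mu g) (-de g) (lam (g.1 (FreeGroup.of 1))).b32 (lam (g.1 (FreeGroup.of 1))).c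
        (be g) (lam (g.1 (FreeGroup.of 2))).c (lam w) := by
  have h : (Xi 0 0 0 0 0 0).comp (lam.comp g.1.toMonoidHom) =
      (Xi (mu g) (-de g) (lam (g.1 (FreeGroup.of 1))).b32 (lam (g.1 (FreeGroup.of 1))).c
        (be g) (lam (g.1 (FreeGroup.of 2))).c).comp lam := by
    apply hom_ext3
    · obtain ⟨h1, h2, h3, h4⟩ := lam_g0 g
      simp [Xi, lam_0, h1, h2, h3, h4, mu, de]
    · obtain ⟨h1, h2, h3, h4⟩ := lam_g1 g
      simp [Xi, lam_1, h1, h2, h3, h4]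
    · obtain ⟨h1, h2, h3, h4⟩ := lam_g2 g
      simp [Xi, lam_2, h1, h2, h3, h4, be]
  exact DFunLike.congr_fun h w

theorem key12 (g : IA 3) (w : FreeGroup (Fin 3)) :
    Xi12 0 0 0 (lam (g.1 w)) =
      Xi12 (al g) (lam (g.1 (FreeGroup.of 1))).b12 (lam (g.1 (FreeGroup.of 2))).b12 (lam w) := by
  have h : (Xi12 0 0 0).comp (lam.comp g.1.toMonoidHom) =
      (Xi12 (al g) (lam (g.1 (FreeGroup.of 1))).b12 (lam (g.1 (FreeGroup.of 2))).b12).comp lam := by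
    apply hom_ext3
    · obtain ⟨h1, h2, h3, h4⟩ := lam_g0 g
      simp [Xi12, lam_0, h1, h2, al]
    · obtain ⟨h1, h2, h3, h4⟩ := lam_g1 g
      simp [Xi12, lam_1, h1, h2]
    · obtain ⟨h1, h2, h3, h4⟩ := lam_g2 g
      simp [Xi12, lam_2, h1, h2]
  exact DFunLike.congr_fun h w

theorem key32 (g : IA 3) (w : FreeGroup (Fin 3)) :
    Xi32 0 0 0 (lam (g.1 w)) =
      Xi32 (-mu g) (lam (g.1 (FreeGroup.of 1))).b32 (be g) (lam w) := by
  have h : (Xi32 0 0 0).comp (lam.comp g.1.toMonoidHom) =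
      (Xi32 (-mu g) (lam (g.1 (FreeGroup.of 1))).b32 (be g)).comp lam := by
    apply hom_ext3
    · obtain ⟨h1, h2, h3, h4⟩ := lam_g0 g
      simp [Xi32, lam_0, h3, h2, mu]
    · obtain ⟨h1, h2, h3, h4⟩ := lam_g1 g
      simp [Xi32, lam_1, h3, h2]
    · obtain ⟨h1, h2, h3, h4⟩ := lam_g2 g
      simp [Xi32, lam_2, h3, h2, be]
  exact DFunLike.congr_fun h w

theorem mu_mul (g h : IA 3) : mu (g * h) = mu g + mu h := by
  have h1 := congrArg U3.b (key32 g (h.1 (FreeGroup.of 0)))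
  obtain ⟨e1, e2, e3, e4⟩ := lam_g0 h
  simp [Xi32, e1, e2, e3] at h1
  simp only [mu, Subgroup.coe_mul, MulAut.mul_apply, h1]
  ring

theorem al_mul (g h : IA 3) : al (g * h) = al g + al h := by
  have h1 := congrArg U3.b (key12 g (h.1 (FreeGroup.of 0)))
  obtain ⟨e1, e2, e3, e4⟩ := lam_g0 h
  simp [Xi12, e1, e2, e3] at h1
  simp only [al, Subgroup.coe_mul, MulAut.mul_apply, h1]
  ring

theorem be_mul (g h : IA 3) : be (g * h) = be g + be h := by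
  have h1 := congrArg U3.b (key32 g (h.1 (FreeGroup.of 2)))
  obtain ⟨e1, e2, e3, e4⟩ := lam_g2 h
  simp [Xi32, e1, e2, e3] at h1
  simp only [be, Subgroup.coe_mul, MulAut.mul_apply, h1]
  ring

theorem de_mul (g h : IA 3) : de (g * h) = de g + de h + mu g * al h + be g * mu h := by
  have h1 := congrArg U5.c (key5 g (h.1 (FreeGroup.of 0)))
  obtain ⟨e1, e2, e3, e4⟩ := lam_g0 h
  simp [Xi, e1, e2, e3, e4] at h1
  simp only [de, Subgroup.coe_mul, MulAut.mul_apply, h1]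
  simp only [mu, al]
  ring

/-- the class two group containing the image of `IA_3` -/
@[ext] structure N4 where
  m : ℤ
  a : ℤ
  b : ℤ
  d : ℤ

namespace N4

instance : Mul N4 := ⟨fun x y => ⟨x.m + y.m, x.a + y.a, x.b + y.b,
  x.d + y.d + x.m * y.a + x.b * y.m⟩⟩
instance : One N4 := ⟨⟨0, 0, 0, 0⟩⟩
instance : Inv N4 := ⟨fun x => ⟨-x.m, -x.a, -x.b, -x.d + x.m * x.a + x.b * x.m⟩⟩

@[simp] theorem mul_m (x y : N4) : (x * y).m = x.m + y.m := rfl
@[simp] theorem mul_a (x y : N4) : (x * y).a = x.a + y.a := rfl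
@[simp] theorem mul_b (x y : N4) : (x * y).b = x.b + y.b := rfl
@[simp] theorem mul_d (x y : N4) : (x * y).d = x.d + y.d + x.m * y.a + x.b * y.m := rfl
@[simp] theorem one_m : (1 : N4).m = 0 := rfl
@[simp] theorem one_a : (1 : N4).a = 0 := rfl
@[simp] theorem one_b : (1 : N4).b = 0 := rfl
@[simp] theorem one_d : (1 : N4).d = 0 := rfl
@[simp] theorem inv_m (x : N4) : (x⁻¹).m = -x.m := rfl
@[simp] theorem inv_a (x : N4) : (x⁻¹).a = -x.a := rfl
@[simp] theorem inv_b (x : N4) : (x⁻¹).b = -x.b := rfl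
@[simp] theorem inv_d (x : N4) : (x⁻¹).d = -x.d + x.m * x.a + x.b * x.m := rfl

instance : Group N4 where
  mul_assoc x y z := by ext <;> simp <;> ring
  one_mul x := by ext <;> simp
  mul_one x := by ext <;> simp
  inv_mul_cancel x := by ext <;> simp <;> ring

end N4

/-- the homomorphism `IA_3 → N4` -/
def Phi : IA 3 →* N4 :=
  MonoidHom.mk' (fun g => ⟨mu g, al g, be g, de g⟩) (by
    intro g h
    ext
    · exact mu_mul g h
    · exact al_mul g h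
    · exact be_mul g h
    · exact de_mul g h)

/-- the functional `m` on the first graded component -/
theorem n4_comm (x y : N4) : ⁅x, y⁆ = ⟨0, 0, 0, x.m * (y.a - y.b) - y.m * (x.a - x.b)⟩ := by
  ext <;> simp [commutatorElement_def] <;> ring

theorem gam1_N4 (x : N4) (hx : x ∈ Gam N4 1) : x.m = 0 ∧ x.a = 0 ∧ x.b = 0 := by
  let K : Subgroup N4 :=
    { carrier := {x | x.m = 0 ∧ x.a = 0 ∧ x.b = 0}
      mul_mem' := by
        rintro x y ⟨h1, h2, h3⟩ ⟨h4, h5, h6⟩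
        simp [h1, h2, h3, h4, h5, h6]
      one_mem' := by simp
      inv_mem' := by
        rintro x ⟨h1, h2, h3⟩
        simp [h1, h2, h3] }
  have h : Gam N4 1 ≤ K := by
    change ⁅Gam N4 0, (⊤ : Subgroup N4)⁆ ≤ K
    rw [Subgroup.commutator_le]
    intro x _ y _
    rw [n4_comm]
    exact ⟨rfl, rfl, rfl⟩
  exact h hx

theorem gam2_N4 (x : N4) (hx : x ∈ Gam N4 2) : x = 1 := by
  have h : Gam N4 2 ≤ ⊥ := by
    change ⁅Gam N4 1, (⊤ : Subgroup N4)⁆ ≤ ⊥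
    rw [Subgroup.commutator_le]
    intro x hx y _
    obtain ⟨h1, h2, h3⟩ := gam1_N4 x hx
    rw [n4_comm, h1, h2, h3, Subgroup.mem_bot]
    ext <;> simp
  exact h hx

theorem map_gam {G H : Type*} [Group G] [Group H] (f : G →* H) (k : ℕ) (x : G)
    (hx : x ∈ Gam G k) : f x ∈ Gam H k := by
  have h := Subgroup.map_lowerCentralSeries (⊤ : Subgroup G) f k
  have h1 : f x ∈ (Gam G k).map f := ⟨x, hx, rfl⟩
  rw [h] at h1
  exact Subgroup.lowerCentralSeries_mono k le_top h1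

end Pool.Agent.H85R2.GrLie
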