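import Pool.Agent.H85R2.IA3b

/-!
The graded Lie ring of the lower central series of `IA_3` is not a free Lie algebra modulo
quadratic relations. Let `m : x1 ↦ x1 [x2, x3]` and `a : x1 ↦ x2⁻¹ x1 x2`. Then `[[m, a], m]` lies in
the fourth term of the lower central series of `IA_3`, but the corresponding element of degree three
of `L[V]` is not in the ideal generated by the quadratic relations of `E_0^*(IA_3)`.
-/

set_option autoImplicit false

open scoped commutatorElement DirectSum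

namespace Pool.Agent.H85R2.GrLie


/-! ### a test Lie ring -/

/-- the Lie ring with basis `m, g, e, w` and `[m, g] = e`, `[e, m] = w` -/
@[ext] structure L4 where
  m : ℤ
  g : ℤ
  e : ℤ
  w : ℤ

namespace L4

instance : Add L4 := ⟨fun x y => ⟨x.m + y.m, x.g + y.g, x.e + y.e, x.w + y.w⟩⟩
instance : Zero L4 := ⟨⟨0, 0, 0, 0⟩⟩
instance : Neg L4 := ⟨fun x => ⟨-x.m, -x.g, -x.e, -x.w⟩⟩

@[simp] theorem add_m (x y : L4) : (x + y).m = x.m + y.m := rfl
@[simp] theorem add_g (x y : L4) : (x + y).g = x.g + y.g := rfl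
@[simp] theorem add_e (x y : L4) : (x + y).e = x.e + y.e := rfl
@[simp] theorem add_w (x y : L4) : (x + y).w = x.w + y.w := rfl
@[simp] theorem zero_m : (0 : L4).m = 0 := rfl
@[simp] theorem zero_g : (0 : L4).g = 0 := rfl
@[simp] theorem zero_e : (0 : L4).e = 0 := rfl
@[simp] theorem zero_w : (0 : L4).w = 0 := rfl
@[simp] theorem neg_m (x : L4) : (-x).m = -x.m := rfl
@[simp] theorem neg_g (x : L4) : (-x).g = -x.g := rfl
@[simp] theorem neg_e (x : L4) : (-x).e = -x.e := rfl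
@[simp] theorem neg_w (x : L4) : (-x).w = -x.w := rfl

instance : AddCommGroup L4 where
  add_assoc x y z := by ext <;> simp <;> ring
  zero_add x := by ext <;> simp
  add_zero x := by ext <;> simp
  add_comm x y := by ext <;> simp <;> ring
  neg_add_cancel x := by ext <;> simp
  nsmul := nsmulRec
  zsmul := zsmulRec

instance : LieRing L4 where
  bracket x y := ⟨0, 0, x.m * y.g - x.g * y.m, x.e * y.m - x.m * y.e⟩
  add_lie x y z := by ext <;> simp <;> ring
  lie_add x y z := by ext <;> simp <;> ring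
  lie_self x := by ext <;> simp <;> ring
  leibniz_lie x y z := by ext <;> simp <;> ring

theorem lie_def (x y : L4) : ⁅x, y⁆ = ⟨0, 0, x.m * y.g - x.g * y.m, x.e * y.m - x.m * y.e⟩ := rfl

end L4

/-- a homomorphism of Lie rings factors through the quotient -/
noncomputable def qlift {L L' : Type*} [LieRing L] [LieRing L'] (I : LieIdeal ℤ L)
    (f : L →ₗ⁅ℤ⁆ L') (h : ∀ x ∈ I, f x = 0) : (L ⧸ I) →ₗ⁅ℤ⁆ L' :=
  { (Submodule.liftQ I.toSubmodule (f : L →ₗ[ℤ] L') (fun x hx => h x hx)) with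
    map_lie' := by
      intro x y
      obtain ⟨x, rfl⟩ := LieSubmodule.Quotient.surjective_mk' I x
      obtain ⟨y, rfl⟩ := LieSubmodule.Quotient.surjective_mk' I y
      exact f.map_lie x y }

theorem qlift_mk {L L' : Type*} [LieRing L] [LieRing L'] (I : LieIdeal ℤ L)
    (f : L →ₗ⁅ℤ⁆ L') (h : ∀ x ∈ I, f x = 0) (x : L) :
    qlift I f h (LieSubmodule.Quotient.mk x) = f x := rfl


/-! ### functionals on the graded pieces -/

/-- an additive function on `Γ_{k+1}` vanishing on `Γ_{k+2}` gives a functional -/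
theorem exists_functional {G : Type*} [Group G] (k : ℕ) (f : G → ℤ)
    (hf : ∀ x y, x ∈ Gam G k → y ∈ Gam G k → f (x * y) = f x + f y)
    (hf2 : ∀ x, x ∈ Gam G (k + 1) → f x = 0) :
    ∃ F : Comp G k →+ ℤ, ∀ x hx, F (cl k x hx) = f x := by
  have hinv : ∀ x ∈ Gam G k, f x⁻¹ = - f x := by
    intro x hx
    have h1 := hf x x⁻¹ hx (inv_mem hx)
    have h2 := hf 1 1 (one_mem _) (one_mem _)
    rw [mul_inv_cancel] at h1
    rw [mul_one] at h2
    omega
  have key : ∀ x x' hx hx', cl (G := G) k x hx = cl k x' hx' → f x = f x' := by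
    intro x x' hx hx' h
    rw [cl_eq_iff] at h
    have h1 := hf2 _ h
    rw [hf _ _ (inv_mem hx) hx', hinv x hx] at h1
    omega
  refine ⟨AddMonoidHom.mk' (fun x => f (cl_surj k x).choose) ?_, ?_⟩
  · intro x y
    have hx := (cl_surj k x).choose_spec
    have hy := (cl_surj k y).choose_spec
    have hxy := (cl_surj k (x + y)).choose_spec
    rw [← hf _ _ hx.choose hy.choose]
    apply key _ _ hxy.choose (mul_mem hx.choose hy.choose)
    rw [cl_mul _ _ _ hx.choose hy.choose, hx.choose_spec, hy.choose_spec, hxy.choose_spec]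
  · intro x hx
    exact key _ _ _ _ (cl_surj k (cl k x hx)).choose_spec.choose_spec

theorem incl_add {V : Type*} [AddCommGroup V] (v w : V) :
    FreeLieOn.incl (v + w) = FreeLieOn.incl v + FreeLieOn.incl w := by
  have h : FreeLieAlgebra.of ℤ (v + w) - FreeLieAlgebra.of ℤ v - FreeLieAlgebra.of ℤ w ∈
      LieSubmodule.lieSpan ℤ (FreeLieAlgebra ℤ V) (addRel V) :=
    LieSubmodule.subset_lieSpan ⟨v, w, rfl⟩
  have h2 := LieSubmodule.Quotient.mk_eq_zero'.2 h
  have h3 : (FreeLieOn.incl (v + w) - FreeLieOn.incl v - FreeLieOn.incl w : FreeLieOn V) = 0 := h2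
  rw [sub_sub, sub_eq_zero] at h3
  exact h3

/-- `incl` as an additive map -/
noncomputable def inclHom (V : Type*) [AddCommGroup V] : V →+ FreeLieOn V :=
  AddMonoidHom.mk' FreeLieOn.incl incl_add

theorem mem_homog_one {V : Type*} [AddCommGroup V] (x : FreeLieOn V)
    (hx : x ∈ FreeLieOn.homog V 0) : ∃ v, x = FreeLieOn.incl v := by
  have hx' : x ∈ AddSubgroup.closure (Set.range FreeLieOn.incl) := hx
  clear hx
  induction hx' using AddSubgroup.closure_induction with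
  | mem x hx => obtain ⟨v, rfl⟩ := hx; exact ⟨v, rfl⟩
  | zero => exact ⟨0, (map_zero (inclHom V)).symm⟩
  | add x y _ _ hx hy =>
    obtain ⟨v, rfl⟩ := hx
    obtain ⟨w, rfl⟩ := hy
    exact ⟨v + w, (incl_add v w).symm⟩
  | neg x _ hx =>
    obtain ⟨v, rfl⟩ := hx
    exact ⟨-v, (map_neg (inclHom V) v).symm⟩

theorem incl_mem_homog {V : Type*} [AddCommGroup V] (v : V) :
    FreeLieOn.incl v ∈ FreeLieOn.homog V 0 := AddSubgroup.subset_closure ⟨v, rfl⟩

theorem mem_homog_two {V : Type*} [AddCommGroup V] (x : FreeLieOn V)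
    (hx : x ∈ FreeLieOn.homog V 1) : x ∈ AddSubgroup.closure
      {x | ∃ v : V, ∃ y ∈ FreeLieOn.homog V 0, x = ⁅FreeLieOn.incl v, y⁆} := hx

/-- the component of degree two -/
noncomputable def comp1 {G : Type*} [Group G] : E0 G →+ Comp G 1 :=
  (DFinsupp.evalAddMonoidHom 1 : (Π₀ k, Comp G k) →+ Comp G 1)

theorem comp1_of {G : Type*} [Group G] (c : Comp G 1) : comp1 (E0.of 1 c) = c := by
  change (DirectSum.of (Comp G) 1 c) 1 = c
  exact DirectSum.of_eq_same 1 c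

/-- The graded Lie ring `E_0^*(IA_3)` is not a free Lie algebra modulo quadratic relations. -/
theorem ia3_not_quadratic : ¬ IsFreeModQuadratic (IA 3) := by
  rintro ⟨S, hS, φ, hφ⟩
  -- the functionals
  have hcomm : ∀ x ∈ Gam (IA 3) 1, mu x = 0 ∧ al x = 0 ∧ be x = 0 := fun x hx =>
    gam1_N4 (Phi x) (map_gam Phi 1 x hx)
  have hde2 : ∀ x ∈ Gam (IA 3) 2, de x = 0 := fun x hx =>
    congrArg N4.d (gam2_N4 (Phi x) (map_gam Phi 2 x hx))
  obtain ⟨M, hM⟩ := exists_functional (G := IA 3) 0 mu (fun x y _ _ => mu_mul x y)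
    (fun x hx => (hcomm x hx).1)
  obtain ⟨Gf, hG⟩ := exists_functional (G := IA 3) 0 (fun x => al x - be x)
    (fun x y _ _ => by rw [al_mul, be_mul]; ring)
    (fun x hx => by rw [(hcomm x hx).2.1, (hcomm x hx).2.2]; ring)
  obtain ⟨D, hD⟩ := exists_functional (G := IA 3) 1 de
    (fun x y hx hy => by rw [de_mul, (hcomm x hx).1, (hcomm x hx).2.2]; ring)
    hde2
  have hDbr : ∀ x y : Comp (IA 3) 0, D (br 0 0 x y) = M x * Gf y - Gf x * M y := by
    intro x y
    obtain ⟨x, hx, rfl⟩ := cl_surj 0 x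
    obtain ⟨y, hy, rfl⟩ := cl_surj 0 y
    rw [br_cl, hD, hM, hM, hG, hG]
    have h := congrArg N4.d (map_commutatorElement Phi x y)
    rw [n4_comm] at h
    change de ⁅x, y⁆ = mu x * (al y - be y) - mu y * (al x - be x) at h
    rw [h]
    ring
  -- the homomorphism Ψ
  let V := Comp (IA 3) 0
  let I := LieSubmodule.lieSpan ℤ (FreeLieOn V) S
  let Ψ : FreeLieOn V → E0 (IA 3) := fun x => φ (FreeLieOn.toQuot S x)
  have Ψadd : ∀ x y, Ψ (x + y) = Ψ x + Ψ y := fun x y =>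
    map_add φ (FreeLieOn.toQuot S x) (FreeLieOn.toQuot S y)
  have Ψlie : ∀ x y, Ψ ⁅x, y⁆ = ⁅Ψ x, Ψ y⁆ := fun x y =>
    LieEquiv.map_lie φ (FreeLieOn.toQuot S x) (FreeLieOn.toQuot S y)
  have Ψker : ∀ x, Ψ x = 0 ↔ x ∈ I := by
    intro x
    have h1 : Ψ x = 0 ↔ FreeLieOn.toQuot S x = 0 := EmbeddingLike.map_eq_zero_iff (f := φ)
    rw [h1]
    exact LieSubmodule.Quotient.mk_eq_zero' (N := I)
  -- degree one part
  have hdeg1 : ∀ v : V, ∃ c : V, Ψ (FreeLieOn.incl v) = E0.of 0 c := fun v =>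
    (hφ 0 _).2 ⟨FreeLieOn.incl v, incl_mem_homog v, rfl⟩
  choose a ha using hdeg1
  have haadd : ∀ v w, a (v + w) = a v + a w := by
    intro v w
    apply E0.of_injective 0
    rw [map_add, ← ha, ← ha, ← ha, incl_add, Ψadd]
  have hsurj : ∀ c : V, ∃ v, a v = c := by
    intro c
    obtain ⟨x, hx, hxc⟩ := (hφ 0 (E0.of 0 c)).1 ⟨c, rfl⟩
    obtain ⟨v, rfl⟩ := mem_homog_one x hx
    refine ⟨v, E0.of_injective 0 ?_⟩
    rw [← ha]
    exact hxc
  -- the homomorphism ψ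
  let f : V → L4 := fun v => ⟨M (a v), Gf (a v), 0, 0⟩
  have hfadd : ∀ v w, f (v + w) = f v + f w := by
    intro v w
    ext <;> simp [f, haadd]
  let ψ0 : FreeLieAlgebra ℤ V →ₗ⁅ℤ⁆ L4 := FreeLieAlgebra.lift ℤ f
  have hψ0 : ∀ v, ψ0 (FreeLieAlgebra.of ℤ v) = f v := fun v =>
    FreeLieAlgebra.lift_of_apply f v
  have hψ0ker : ∀ x ∈ LieSubmodule.lieSpan ℤ (FreeLieAlgebra ℤ V) (addRel V), ψ0 x = 0 := by
    have h : LieSubmodule.lieSpan ℤ (FreeLieAlgebra ℤ V) (addRel V) ≤ ψ0.ker := by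
      rw [LieSubmodule.lieSpan_le]
      rintro _ ⟨v, w, rfl⟩
      rw [SetLike.mem_coe, LieHom.mem_ker, map_sub, map_sub, hψ0, hψ0, hψ0, hfadd]
      abel
    intro x hx
    exact (LieHom.mem_ker).1 (h hx)
  let ψ : FreeLieOn V →ₗ⁅ℤ⁆ L4 := qlift (LieSubmodule.lieSpan ℤ (FreeLieAlgebra ℤ V) (addRel V))
    ψ0 hψ0ker
  have hψ : ∀ v, ψ (FreeLieOn.incl v) = f v := hψ0
  -- ψ on the degree two part
  let P : E0 (IA 3) →+ ℤ := D.comp comp1
  have hP : ∀ c : Comp (IA 3) 1, P (E0.of 1 c) = D c := fun c => congrArg D (comp1_of c)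
  have Ψzero : Ψ 0 = 0 := (Ψker 0).2 (zero_mem _)
  let ΨH : FreeLieOn V →+ E0 (IA 3) := ⟨⟨Ψ, Ψzero⟩, Ψadd⟩
  have h2 : ∀ x ∈ FreeLieOn.homog V 1, ψ x = ⟨0, 0, P (ΨH x), 0⟩ := by
    intro x hx
    have hx' := mem_homog_two x hx
    clear hx
    induction hx' using AddSubgroup.closure_induction with
    | mem x hx =>
      obtain ⟨v, y, hy, rfl⟩ := hx
      obtain ⟨w, rfl⟩ := mem_homog_one y hy
      have e1 : ΨH ⁅FreeLieOn.incl v, FreeLieOn.incl w⁆ = E0.of (0 + 0 + 1) (br 0 0 (a v) (a w)) := by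
        change Ψ _ = _
        rw [Ψlie, ha, ha, E0.lie_of]
      rw [LieHom.map_lie, hψ, hψ, e1]
      have e2 : P (E0.of (0 + 0 + 1) (br 0 0 (a v) (a w))) = D (br 0 0 (a v) (a w)) := hP _
      rw [e2, hDbr, L4.lie_def]
      ext <;> simp [f]
    | zero => ext <;> simp
    | add x y _ _ hx hy =>
      rw [map_add, hx, hy, map_add, map_add]
      ext <;> simp
    | neg x _ hx =>
      rw [map_neg, hx, map_neg, map_neg]
      ext <;> simp
  have hSker : ∀ s ∈ S, ψ s = 0 := by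
    intro s hs
    have h3 : Ψ s = 0 := (Ψker s).2 (LieSubmodule.subset_lieSpan hs)
    have h4 : ΨH s = 0 := h3
    rw [h2 s (hS s hs), h4, map_zero]
    rfl
  have hIker : ∀ x ∈ I, ψ x = 0 := by
    have h : I ≤ ψ.ker := by
      rw [LieSubmodule.lieSpan_le]
      intro s hs
      exact (LieHom.mem_ker).2 (hSker s hs)
    intro x hx
    exact (LieHom.mem_ker).1 (h hx)
  -- the cubic element
  have hm0 : gm ∈ Gam (IA 3) 0 := Subgroup.mem_top _
  have ha0 : ga ∈ Gam (IA 3) 0 := Subgroup.mem_top _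
  obtain ⟨vm, hvm⟩ := hsurj (cl 0 gm hm0)
  obtain ⟨va, hva⟩ := hsurj (cl 0 ga ha0)
  have hw : Ψ ⁅⁅FreeLieOn.incl vm, FreeLieOn.incl va⁆, FreeLieOn.incl vm⁆ = 0 := by
    rw [Ψlie, Ψlie, ha, ha, hvm, hva, E0.lie_of, br_cl, E0.lie_of, br_cl]
    have h : cl (0 + 0 + 1 + 0 + 1) ⁅⁅gm, ga⁆, gm⁆ (comm_mem (comm_mem hm0 ha0) hm0) = 0 :=
      (cl_eq_zero_iff _ _ _).2 main_rel
    rw [h, map_zero]
  have hz := hIker _ ((Ψker _).1 hw)
  rw [LieHom.map_lie, LieHom.map_lie, hψ, hψ] at hz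
  have hz2 := congrArg L4.w hz
  simp only [f, L4.lie_def, hvm, hva, hM, hG, mu_gm, al_gm, be_gm, mu_ga, al_ga, be_ga] at hz2
  norm_num at hz2

end Pool.Agent.H85R2.GrLie
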