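import Pool.Agent.H85R2.IA3

set_option autoImplicit false

open scoped commutatorElement DirectSum

namespace Pool.Agent.H85R2.GrLie

/-! ### elements of `IA_3` -/

/-- the embedding of the free group on two letters, onto `⟨x2, x3⟩` -/
def K : FreeGroup (Fin 2) →* FreeGroup (Fin 3) :=
  FreeGroup.lift ![FreeGroup.of 1, FreeGroup.of 2]

/-- the endomorphism `x1 ↦ u x1 v` -/
def Tm (u v : FreeGroup (Fin 2)) : FreeGroup (Fin 3) →* FreeGroup (Fin 3) :=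
  FreeGroup.lift ![K u * FreeGroup.of 0 * K v, FreeGroup.of 1, FreeGroup.of 2]

theorem K_0 : K (FreeGroup.of 0) = FreeGroup.of 1 := by simp [K]
theorem K_1 : K (FreeGroup.of 1) = FreeGroup.of 2 := by simp [K]

theorem Tm_0 (u v : FreeGroup (Fin 2)) : Tm u v (FreeGroup.of 0) = K u * FreeGroup.of 0 * K v := by
  simp [Tm]
theorem Tm_1 (u v : FreeGroup (Fin 2)) : Tm u v (FreeGroup.of 1) = FreeGroup.of 1 := by simp [Tm]
theorem Tm_2 (u v : FreeGroup (Fin 2)) : Tm u v (FreeGroup.of 2) = FreeGroup.of 2 := by simp [Tm]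

theorem hom_ext2 {H : Type*} [Group H] (f g : FreeGroup (Fin 2) →* H)
    (h0 : f (FreeGroup.of 0) = g (FreeGroup.of 0)) (h1 : f (FreeGroup.of 1) = g (FreeGroup.of 1)) :
    f = g := by
  apply FreeGroup.ext_hom
  intro i
  fin_cases i
  · exact h0
  · exact h1

theorem Tm_K (u v w : FreeGroup (Fin 2)) : Tm u v (K w) = K w := by
  have h : (Tm u v).comp K = K := by
    apply hom_ext2
    · rw [MonoidHom.comp_apply, K_0, Tm_1]
    · rw [MonoidHom.comp_apply, K_1, Tm_2]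
  exact DFunLike.congr_fun h w

theorem Tm_comp (u v u' v' : FreeGroup (Fin 2)) :
    (Tm u v).comp (Tm u' v') = Tm (u' * u) (v * v') := by
  apply hom_ext3
  · rw [MonoidHom.comp_apply, Tm_0, Tm_0, map_mul, map_mul, Tm_K, Tm_K, Tm_0, map_mul, map_mul]
    simp only [mul_assoc]
  · rw [MonoidHom.comp_apply, Tm_1, Tm_1, Tm_1]
  · rw [MonoidHom.comp_apply, Tm_2, Tm_2, Tm_2]

theorem Tm_one : Tm 1 1 = MonoidHom.id _ := by
  apply hom_ext3
  · rw [Tm_0]; simp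
  · rw [Tm_1]; simp
  · rw [Tm_2]; simp

/-- the automorphism `x1 ↦ u x1 v` -/
def T (u v : FreeGroup (Fin 2)) : MulAut (FreeGroup (Fin 3)) where
  toFun := Tm u v
  invFun := Tm u⁻¹ v⁻¹
  left_inv w := by
    have h := Tm_comp u⁻¹ v⁻¹ u v
    rw [mul_inv_cancel, inv_mul_cancel, Tm_one] at h
    exact DFunLike.congr_fun h w
  right_inv w := by
    have h := Tm_comp u v u⁻¹ v⁻¹
    rw [inv_mul_cancel, mul_inv_cancel, Tm_one] at h
    exact DFunLike.congr_fun h w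
  map_mul' := (Tm u v).map_mul

theorem T_apply (u v : FreeGroup (Fin 2)) (w : FreeGroup (Fin 3)) : T u v w = Tm u v w := rfl

theorem T_mul (u v u' v' : FreeGroup (Fin 2)) : T u v * T u' v' = T (u' * u) (v * v') := by
  ext1 w
  rw [MulAut.mul_apply, T_apply, T_apply, T_apply, ← Tm_comp]
  rfl

theorem T_one : T 1 1 = 1 := by
  ext1 w
  rw [T_apply, Tm_one]
  rfl

theorem T_inv (u v : FreeGroup (Fin 2)) : (T u v)⁻¹ = T u⁻¹ v⁻¹ := by
  rw [inv_eq_iff_mul_eq_one, T_mul]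
  simp [T_one]

theorem T_mem (u v : FreeGroup (Fin 2))
    (h : Abelianization.of (K u) * Abelianization.of (K v) = 1) : T u v ∈ IA 3 := by
  intro w
  have h2 : Abelianization.of.comp (Tm u v) = Abelianization.of := by
    apply hom_ext3
    · rw [MonoidHom.comp_apply, Tm_0, map_mul, map_mul, mul_comm (Abelianization.of (K u)),
        mul_assoc, h, mul_one]
    · rw [MonoidHom.comp_apply, Tm_1]
    · rw [MonoidHom.comp_apply, Tm_2]
  exact DFunLike.congr_fun h2 w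

/-- `m : x1 ↦ x1 [x2, x3]` -/
def gm : IA 3 := ⟨T 1 ⁅FreeGroup.of (0 : Fin 2), FreeGroup.of (1 : Fin 2)⁆, T_mem _ _ (by
  simp [map_commutatorElement, commutatorElement_eq_one_iff_mul_comm, mul_comm])⟩
/-- `a : x1 ↦ x2⁻¹ x1 x2` -/
def ga : IA 3 := ⟨T (FreeGroup.of 0)⁻¹ (FreeGroup.of 0), T_mem _ _ (by simp)⟩
/-- `b : x1 ↦ x3⁻¹ x1 x3` -/
def gb : IA 3 := ⟨T (FreeGroup.of 1)⁻¹ (FreeGroup.of 1), T_mem _ _ (by simp)⟩

theorem rel_mem {G : Type*} [Group G] (m a b : G) (h1 : ⁅a, b⁆ * m = m * ⁅a, b⁆)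
    (h2 : (a * (⁅a, b⁆ * m⁻¹) * a⁻¹) * m = m * (a * (⁅a, b⁆ * m⁻¹) * a⁻¹)) :
    ⁅⁅m, a⁆, m⁆ ∈ Gam G 3 := by
  generalize hd : ⁅a, b⁆ = d at h1 h2
  have hdm : d ∈ Gam G 1 := by
    rw [← hd]
    exact comm_mem (i := 0) (j := 0) (Subgroup.mem_top a) (Subgroup.mem_top b)
  have he : ⁅a, d⁆ ∈ Gam G 2 := comm_mem (i := 0) (j := 1) (Subgroup.mem_top a) hdm
  generalize hl : a * (d * m⁻¹) * a⁻¹ = l at h2
  have h3 : ⁅⁅a, d⁆⁻¹, m⁆ ∈ Gam G 3 := comm_mem (i := 2) (j := 0) (inv_mem he) (Subgroup.mem_top m)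
  have hid : ⁅⁅m, a⁆, m⁆ = (m * d⁻¹) * ⁅⁅a, d⁆⁻¹, m⁆ * (m * d⁻¹)⁻¹ := by
    have e1 : ⁅m, a⁆ = m * d⁻¹ * ⁅a, d⁆⁻¹ * l := by
      rw [← hl]
      simp [commutatorElement_def, mul_assoc]
    generalize ⁅a, d⁆ = e at e1
    rw [e1]
    have h4 : l * m * l⁻¹ = m := by rw [h2]; group
    have h5 : d * m⁻¹ = m⁻¹ * d := by
      rw [eq_inv_mul_iff_mul_eq, ← mul_assoc, ← h1]; group
    calc ⁅m * d⁻¹ * e⁻¹ * l, m⁆ = m * d⁻¹ * e⁻¹ * (l * m * l⁻¹) * e * (d * m⁻¹) * m⁻¹ := by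
          simp [commutatorElement_def, mul_assoc]
      _ = m * d⁻¹ * e⁻¹ * m * e * (m⁻¹ * d) * m⁻¹ := by rw [h4, h5]
      _ = _ := by simp [commutatorElement_def, mul_assoc]
  rw [hid]
  exact (gam_normal 3).conj_mem _ h3 _

theorem main_rel : ⁅⁅gm, ga⁆, gm⁆ ∈ Gam (IA 3) 3 := by
  have hd : (⁅ga, gb⁆ : IA 3).1 = T (FreeGroup.of 1 * FreeGroup.of 0 * (FreeGroup.of 1)⁻¹ *
      (FreeGroup.of 0)⁻¹) ⁅FreeGroup.of (0 : Fin 2), FreeGroup.of (1 : Fin 2)⁆ := by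
    simp only [commutatorElement_def, ga, gb, Subgroup.coe_mul, Subgroup.coe_inv, T_mul, T_inv,
      inv_inv, mul_assoc]
  apply rel_mem gm ga gb
  · apply Subtype.ext
    rw [Subgroup.coe_mul, Subgroup.coe_mul, hd, gm, T_mul, T_mul]
    simp
  · apply Subtype.ext
    simp only [Subgroup.coe_mul, Subgroup.coe_inv, hd]
    simp only [gm, ga, T_mul, T_inv]
    congr 1 <;> simp [commutatorElement_def, mul_assoc]

theorem mu_gm : mu gm = 1 := by
  simp [mu, gm, T_apply, Tm_0, K_0, K_1, lam_0, lam_1, lam_2, commutatorElement_def]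
theorem al_gm : al gm = 0 := by
  simp [al, gm, T_apply, Tm_0, K_0, K_1, lam_0, lam_1, lam_2, commutatorElement_def]
theorem be_gm : be gm = 0 := by
  simp [be, gm, T_apply, Tm_2, lam_2]
theorem mu_ga : mu ga = 0 := by
  simp [mu, ga, T_apply, Tm_0, K_0, lam_0, lam_1]
theorem al_ga : al ga = 1 := by
  simp [al, ga, T_apply, Tm_0, K_0, lam_0, lam_1]
theorem be_ga : be ga = 0 := by
  simp [be, ga, T_apply, Tm_2, lam_2]

end Pool.Agent.H85R2.GrLie
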