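import Mathlib

/-!
# Normality of the elementary subgroup over PI rings: definitions
-/

set_option autoImplicit false

namespace Pool.Agent.H85R2.PI

open Matrix Polynomial

/-- The elementary transvection `1 + r E_ij` as a unit of the matrix ring (it is `1` if `i = j`). -/
def tv {ι R : Type*} [Fintype ι] [DecidableEq ι] [Ring R] (i j : ι) (r : R) : (Matrix ι ι R)ˣ :=
  if h : i ≠ j then
    { val := 1 + single i j r
      inv := 1 + single i j (-r)
      val_inv := by
        rw [mul_add, mul_one, add_mul, one_mul,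
          single_mul_single_of_ne (h := Ne.symm h), add_zero, add_assoc,
          ← single_add, add_neg_cancel, single_zero, add_zero]
      inv_val := by
        rw [mul_add, mul_one, add_mul, one_mul,
          single_mul_single_of_ne (h := Ne.symm h), add_zero, add_assoc,
          ← single_add, neg_add_cancel, single_zero, add_zero] }
  else 1

/-- The elementary subgroup `E_ι(R)`. -/
def El (ι R : Type*) [Fintype ι] [DecidableEq ι] [Ring R] : Subgroup (Matrix ι ι R)ˣ :=
  Subgroup.closure {g | ∃ i j : ι, ∃ r : R, g = tv i j r}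

/-- The subgroup generated by the `tv i j x` with `x ∈ S`. -/
def ElS (ι : Type*) {R : Type*} [Fintype ι] [DecidableEq ι] [Ring R] (S : Set R) :
    Subgroup (Matrix ι ι R)ˣ :=
  Subgroup.closure {g | ∃ i j : ι, ∃ r ∈ S, g = tv i j r}

/-- Functoriality of `GL_ι`. -/
def glm (ι : Type*) {R S : Type*} [Fintype ι] [DecidableEq ι] [Ring R] [Ring S] (φ : R →+* S) :
    (Matrix ι ι R)ˣ →* (Matrix ι ι S)ˣ :=
  Units.map (φ.mapMatrix (m := ι)).toMonoidHom

/-- `R` satisfies the multilinear identity with integer coefficients `c`. -/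
def PId (R : Type*) [Ring R] (D : ℕ) (c : Equiv.Perm (Fin D) → ℤ) : Prop :=
  ∀ x : Fin D → R,
    ∑ σ : Equiv.Perm (Fin D), ((c σ : ℤ) : R) * (List.ofFn (fun i => x (σ i))).prod = 0

/-- `b` is invertible up to an element `s ∉ m` of `Γ`. -/
def MUnit (Γ : Type*) {T : Type*} [CommRing Γ] [Ring T] [Algebra Γ T] (m : Ideal Γ) (b : T) : Prop :=
  ∃ b' : T, ∃ s : Γ, s ∉ m ∧ b * b' = algebraMap Γ T s ∧ b' * b = algebraMap Γ T s

/-- Stable range one of `T` locally at each maximal ideal of `Γ`. -/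
def SRG (Γ T : Type*) [CommRing Γ] [Ring T] [Algebra Γ T] : Prop :=
  ∀ m : Ideal Γ, m.IsMaximal → ∀ a u : T, ∃ z : T, MUnit Γ m (a + z * (1 - u * a))

/-- The axioms for `(Γ, T)` used in the local-global argument. -/
structure Good (Γ T : Type*) [CommRing Γ] [Ring T] [Algebra Γ T] (D : ℕ)
    (c : Equiv.Perm (Fin D) → ℤ) : Prop where
  pid : PId T D c
  b1 : ∀ m : Ideal Γ, m.IsMaximal → ∀ b b' : T,
    b' * b - 1 ∈ (m • (⊤ : Submodule Γ T) : Submodule Γ T) → MUnit Γ m b
  b2 : ∃ N : ℕ, ∀ τ : T[X], ∃ f : Γ[X][X], f.Monic ∧ f.natDegree ≤ N ∧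
    f.eval₂ (mapRingHom (algebraMap Γ T)) τ = 0

/-- The double `T ×_I T` of `T` along a two-sided ideal `I`. -/
def Dbl (Γ : Type*) {T : Type*} [CommRing Γ] [Ring T] [Algebra Γ T] (I : Ideal T)
    [I.IsTwoSided] : Subalgebra Γ (T × T) where
  carrier := {p | p.1 - p.2 ∈ I}
  mul_mem' := by
    intro a b ha hb
    have h1 : a.1 * b.1 - a.2 * b.2 = a.1 * (b.1 - b.2) + (a.1 - a.2) * b.2 := by noncomm_ring
    show a.1 * b.1 - a.2 * b.2 ∈ I
    rw [h1]
    exact I.add_mem (I.mul_mem_left _ hb) (I.mul_mem_right _ ha)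
  add_mem' := by
    intro a b ha hb
    have h1 : a.1 + b.1 - (a.2 + b.2) = (a.1 - a.2) + (b.1 - b.2) := by abel
    show a.1 + b.1 - (a.2 + b.2) ∈ I
    rw [h1]
    exact I.add_mem ha hb
  algebraMap_mem' := by
    intro r
    show algebraMap Γ T r - algebraMap Γ T r ∈ I
    rw [sub_self]
    exact I.zero_mem

/-- First projection of the double. -/
def p1 (Γ : Type*) {T : Type*} [CommRing Γ] [Ring T] [Algebra Γ T] (I : Ideal T)
    [I.IsTwoSided] : Dbl Γ I →+* T :=
  (RingHom.fst T T).comp (Dbl Γ I).toSubring.subtype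

/-- Second projection of the double. -/
def p2 (Γ : Type*) {T : Type*} [CommRing Γ] [Ring T] [Algebra Γ T] (I : Ideal T)
    [I.IsTwoSided] : Dbl Γ I →+* T :=
  (RingHom.snd T T).comp (Dbl Γ I).toSubring.subtype

/-- Capelli value. -/
def cap {R : Type*} [Ring R] (N : ℕ) (x y y' : Fin N → R) : R :=
  ∑ σ : Equiv.Perm (Fin N),
    (Equiv.Perm.sign σ : ℤ) • (List.ofFn fun k => y k * x (σ k) * y' k).prod

/-- The additive span of all `r * cap * r'`, a two-sided ideal. -/
def capIdeal (R : Type*) [Ring R] (N : ℕ) : Ideal R where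
  carrier := AddSubgroup.closure {z : R | ∃ r r' : R, ∃ x y y' : Fin N → R, z = r * cap N x y y' * r'}
  add_mem' := fun ha hb => AddSubgroup.add_mem _ ha hb
  zero_mem' := AddSubgroup.zero_mem _
  smul_mem' := by
    intro a x hx
    show a * x ∈ AddSubgroup.closure _
    have hx' : x ∈ AddSubgroup.closure
      {z : R | ∃ r r' : R, ∃ x y y' : Fin N → R, z = r * cap N x y y' * r'} := hx
    induction hx' using AddSubgroup.closure_induction with
    | mem z hz =>
      obtain ⟨r, r', x, y, y', rfl⟩ := hz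
      exact AddSubgroup.subset_closure ⟨a * r, r', x, y, y', by noncomm_ring⟩
    | zero => rw [mul_zero]; exact AddSubgroup.zero_mem _
    | add z w hz hw h1 h2 => rw [mul_add]; exact AddSubgroup.add_mem _ (h1 hz) (h2 hw)
    | neg z hz h1 => rw [mul_neg]; exact AddSubgroup.neg_mem _ (h1 hz)

instance capIdeal_twoSided (R : Type*) [Ring R] (N : ℕ) : (capIdeal R N).IsTwoSided where
  mul_mem_of_left := by
    intro x a hx
    have hx' : x ∈ AddSubgroup.closure
      {z : R | ∃ r r' : R, ∃ x y y' : Fin N → R, z = r * cap N x y y' * r'} := hx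
    show x * a ∈ AddSubgroup.closure _
    clear hx
    induction hx' using AddSubgroup.closure_induction with
    | mem z hz =>
      obtain ⟨r, r', x, y, y', rfl⟩ := hz
      exact AddSubgroup.subset_closure ⟨r, r' * a, x, y, y', by noncomm_ring⟩
    | zero => rw [zero_mul]; exact AddSubgroup.zero_mem _
    | add z w hz hw h1 h2 => rw [add_mul]; exact AddSubgroup.add_mem _ h1 h2
    | neg z hz h1 => rw [neg_mul]; exact AddSubgroup.neg_mem _ h1

/-- The subring `{γ ∈ C | γ π(J) ⊆ π(J)}` of `C`. -/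
def Gam {R C : Type*} [Ring R] [CommRing C] {d : ℕ} (π : R →+* Matrix (Fin d) (Fin d) C)
    (J : Ideal R) : Subring C where
  carrier := {γ | ∀ x ∈ J, ∃ y ∈ J, γ • π x = π y}
  mul_mem' := by
    intro a b ha hb x hx
    obtain ⟨y, hy, h1⟩ := hb x hx
    obtain ⟨z, hz, h2⟩ := ha y hy
    exact ⟨z, hz, by rw [mul_smul, h1, h2]⟩
  one_mem' := by
    intro x hx
    exact ⟨x, hx, one_smul _ _⟩
  add_mem' := by
    intro a b ha hb x hx
    obtain ⟨y, hy, h1⟩ := hb x hx
    obtain ⟨z, hz, h2⟩ := ha x hx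
    exact ⟨z + y, J.add_mem hz hy, by rw [add_smul, h1, h2, map_add]⟩
  zero_mem' := by
    intro x hx
    exact ⟨0, J.zero_mem, by rw [zero_smul, map_zero]⟩
  neg_mem' := by
    intro a ha x hx
    obtain ⟨z, hz, h2⟩ := ha x hx
    exact ⟨-z, J.neg_mem hz, by rw [neg_smul, h2, map_neg]⟩

/-- The `Γ`-subalgebra of `M_d(C)` generated by `π(R)`. -/
def TT {R C : Type*} [Ring R] [CommRing C] {d : ℕ} (π : R →+* Matrix (Fin d) (Fin d) C)
    (J : Ideal R) : Subalgebra (Gam π J) (Matrix (Fin d) (Fin d) C) :=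
  Algebra.adjoin (Gam π J) (Set.range π)

/-- `R` has, for every simple module `R ⧸ L`, an absolutely irreducible representation of degree
`≤ d` with the same annihilator. -/
def Cls (R : Type) [Ring R] (d : ℕ) : Prop :=
  ∀ L : Submodule R R, IsCoatom L → ∃ e ≤ d, ∃ (K : Type) (_ : Field K)
    (ρ : R →+* Matrix (Fin e) (Fin e) K),
    (∀ r : R, ρ r = 0 ↔ ∀ m : R ⧸ L, r • m = 0) ∧ Submodule.span K (Set.range ρ) = ⊤

end Pool.Agent.H85R2.PI
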