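import Pool.Agent.H85R2.PIDefs

/-!
# Elementary matrices over a noncommutative ring: basic relations
-/

set_option autoImplicit false

namespace Pool.Agent.H85R2.PI

open Matrix
open scoped commutatorElement

section basic

variable {ι R : Type*} [Fintype ι] [DecidableEq ι] [Ring R]

theorem tv_self (i : ι) (r : R) : tv i i r = 1 := by simp [tv]

theorem coe_tv {i j : ι} (h : i ≠ j) (r : R) :
    ((tv i j r : (Matrix ι ι R)ˣ) : Matrix ι ι R) = 1 + single i j r := by
  simp [tv, h]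

theorem coe_tv_inv {i j : ι} (h : i ≠ j) (r : R) :
    (((tv i j r)⁻¹ : (Matrix ι ι R)ˣ) : Matrix ι ι R) = 1 + single i j (-r) := by
  simp only [tv, h, ne_eq, not_false_eq_true, dif_pos]
  rfl

theorem tv_zero (i j : ι) : tv i j (0 : R) = 1 := by
  by_cases h : i = j
  · subst h; exact tv_self _ _
  · ext1
    rw [coe_tv h]; simp

theorem tv_add (i j : ι) (a b : R) : tv i j (a + b) = tv i j a * tv i j b := by
  by_cases h : i = j
  · subst h; simp [tv_self]
  · ext1
    rw [Units.val_mul, coe_tv h, coe_tv h, coe_tv h, mul_add, mul_one, add_mul, one_mul,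
      single_mul_single_of_ne (h := Ne.symm h), add_zero, single_add, add_assoc]

theorem tv_neg (i j : ι) (a : R) : tv i j (-a) = (tv i j a)⁻¹ := by
  rw [eq_inv_iff_mul_eq_one, ← tv_add, neg_add_cancel, tv_zero]

theorem tv_mem (i j : ι) (a : R) : tv i j a ∈ El ι R :=
  Subgroup.subset_closure ⟨i, j, a, rfl⟩

theorem tv_memS {S : Set R} (i j : ι) {a : R} (ha : a ∈ S) : tv i j a ∈ ElS ι S :=
  Subgroup.subset_closure ⟨i, j, a, ha, rfl⟩

theorem ElS_le (S : Set R) : ElS ι S ≤ El ι R := by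
  rw [ElS, Subgroup.closure_le]
  rintro _ ⟨i, j, r, -, rfl⟩
  exact tv_mem _ _ _

theorem ElS_mono {S S' : Set R} (h : S ⊆ S') : ElS ι S ≤ ElS ι S' := by
  rw [ElS, Subgroup.closure_le]
  rintro _ ⟨i, j, r, hr, rfl⟩
  exact tv_memS _ _ (h hr)

theorem ElS_univ : ElS ι (Set.univ : Set R) = El ι R := by
  apply le_antisymm (ElS_le _)
  rw [El, Subgroup.closure_le]
  rintro _ ⟨i, j, r, rfl⟩
  exact tv_memS _ _ trivial

/-- `t_ij(a) t_jk(b) = t_ik(ab) t_jk(b) t_ij(a)` -/
theorem tv_mul_tv {i j k : ι} (hij : i ≠ j) (hjk : j ≠ k) (hik : i ≠ k) (a b : R) :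
    tv i j a * tv j k b = tv i k (a * b) * (tv j k b * tv i j a) := by
  ext1
  simp only [Units.val_mul]
  rw [coe_tv hij, coe_tv hjk, coe_tv hik]
  simp only [mul_add, mul_one, add_mul, one_mul, single_mul_single_same]
  rw [single_mul_single_of_ne (h := Ne.symm hik), single_mul_single_of_ne (h := Ne.symm hik),
    single_mul_single_of_ne (h := Ne.symm hjk)]
  simp only [mul_zero, add_zero]
  abel

theorem tv_commutator {i j k : ι} (hij : i ≠ j) (hjk : j ≠ k) (hik : i ≠ k) (a b : R) :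
    ⁅tv i j a, tv j k b⁆ = tv i k (a * b) := by
  rw [commutatorElement_def, tv_mul_tv hij hjk hik]
  group

theorem glm_coe {S : Type*} [Ring S] (φ : R →+* S) (g : (Matrix ι ι R)ˣ) :
    ((glm ι φ g : (Matrix ι ι S)ˣ) : Matrix ι ι S) = (g : Matrix ι ι R).map φ := rfl

theorem glm_tv {S : Type*} [Ring S] (φ : R →+* S) (i j : ι) (a : R) :
    glm ι φ (tv i j a) = tv i j (φ a) := by
  by_cases h : i = j
  · subst h; simp [tv_self]
  · ext1
    rw [glm_coe, coe_tv h, coe_tv h, Matrix.map_add _ (map_add φ), Matrix.map_one φ (map_zero φ) (map_one φ),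
      map_single]

theorem glm_El_le {S : Type*} [Ring S] (φ : R →+* S) : (El ι R).map (glm ι φ) ≤ El ι S := by
  rw [El, MonoidHom.map_closure, Subgroup.closure_le]
  rintro _ ⟨_, ⟨i, j, r, rfl⟩, rfl⟩
  rw [glm_tv]
  exact tv_mem _ _ _

theorem glm_El_mem {S : Type*} [Ring S] (φ : R →+* S) {g : (Matrix ι ι R)ˣ} (hg : g ∈ El ι R) :
    glm ι φ g ∈ El ι S :=
  glm_El_le φ ⟨g, hg, rfl⟩

theorem glm_El_surj {S : Type*} [Ring S] (φ : R →+* S) (hφ : Function.Surjective φ)
    {g : (Matrix ι ι S)ˣ} (hg : g ∈ El ι S) : ∃ g' ∈ El ι R, glm ι φ g' = g := by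
  have : El ι S ≤ (El ι R).map (glm ι φ) := by
    rw [El, El, MonoidHom.map_closure, Subgroup.closure_le]
    rintro _ ⟨i, j, r, rfl⟩
    obtain ⟨r, rfl⟩ := hφ r
    exact Subgroup.subset_closure ⟨tv i j r, ⟨i, j, r, rfl⟩, glm_tv _ _ _ _⟩
  exact this hg

theorem glm_ElS_surj {S : Type*} [Ring S] (φ : R →+* S) (A : Set R) (B : Set S)
    (hAB : ∀ b ∈ B, ∃ a ∈ A, φ a = b)
    {g : (Matrix ι ι S)ˣ} (hg : g ∈ ElS ι B) : ∃ g' ∈ ElS ι A, glm ι φ g' = g := by
  have : ElS ι B ≤ (ElS ι A).map (glm ι φ) := by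
    rw [ElS, ElS, MonoidHom.map_closure, Subgroup.closure_le]
    rintro _ ⟨i, j, r, hr, rfl⟩
    obtain ⟨r, hr', rfl⟩ := hAB r hr
    exact Subgroup.subset_closure ⟨tv i j r, ⟨i, j, r, hr', rfl⟩, glm_tv _ _ _ _⟩
  exact this hg

theorem glm_comp_apply {S U : Type*} [Ring S] [Ring U] (φ : R →+* S) (ψ : S →+* U)
    (g : (Matrix ι ι R)ˣ) : glm ι ψ (glm ι φ g) = glm ι (ψ.comp φ) g := by
  ext1
  rfl

/-- elements of `ker (glm φ)` -/
theorem glm_eq_one_iff {S : Type*} [Ring S] (φ : R →+* S) (g : (Matrix ι ι R)ˣ) :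
    glm ι φ g = 1 ↔ ∀ i j, φ ((g : Matrix ι ι R) i j) = if i = j then 1 else 0 := by
  constructor
  · intro h i j
    have := congrArg (fun u : (Matrix ι ι S)ˣ => (u : Matrix ι ι S) i j) h
    simpa [glm_coe, Matrix.one_apply] using this
  · intro h
    ext i j
    rw [glm_coe, Matrix.map_apply, h, Units.val_one, Matrix.one_apply]

end basic

section inM

variable {ι R : Type*} [Fintype ι] [DecidableEq ι] [Ring R]

/-- The matrix `m` is (the value of) an element of the subgroup `H`. -/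
def InM (H : Subgroup (Matrix ι ι R)ˣ) (m : Matrix ι ι R) : Prop :=
  ∃ g ∈ H, (g : Matrix ι ι R) = m

theorem InM.one (H : Subgroup (Matrix ι ι R)ˣ) : InM H 1 := ⟨1, H.one_mem, rfl⟩

theorem InM.mul {H : Subgroup (Matrix ι ι R)ˣ} {a b : Matrix ι ι R} (ha : InM H a) (hb : InM H b) :
    InM H (a * b) := by
  obtain ⟨g, hg, rfl⟩ := ha
  obtain ⟨h, hh, rfl⟩ := hb
  exact ⟨g * h, H.mul_mem hg hh, rfl⟩

theorem InM.mono {H H' : Subgroup (Matrix ι ι R)ˣ} (hH : H ≤ H') {a : Matrix ι ι R}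
    (ha : InM H a) : InM H' a := by
  obtain ⟨g, hg, rfl⟩ := ha
  exact ⟨g, hH hg, rfl⟩

theorem InM.of_unit {H : Subgroup (Matrix ι ι R)ˣ} {g : (Matrix ι ι R)ˣ} :
    InM H (g : Matrix ι ι R) ↔ g ∈ H := by
  constructor
  · rintro ⟨h, hh, e⟩
    rwa [← Units.ext e]
  · intro h
    exact ⟨g, h, rfl⟩

/-- if `X`, `Y` are in `H` and `XY = m YX` then `m` is in `H` -/
theorem InM.comm {H : Subgroup (Matrix ι ι R)ˣ} {X Y m : Matrix ι ι R} (hX : InM H X)
    (hY : InM H Y) (h : X * Y = m * (Y * X)) : InM H m := by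
  obtain ⟨g, hg, rfl⟩ := hX
  obtain ⟨k, hk, rfl⟩ := hY
  refine ⟨g * k * (k * g)⁻¹, H.mul_mem (H.mul_mem hg hk) (H.inv_mem (H.mul_mem hk hg)), ?_⟩
  rw [Units.val_mul, Units.val_mul, h, mul_assoc, ← Units.val_mul k g, Units.mul_inv, mul_one]

/-- cancel a left factor in `H` -/
theorem InM.of_mul_left {H : Subgroup (Matrix ι ι R)ˣ} {X m : Matrix ι ι R} (hX : InM H X)
    (h : InM H (X * m)) : InM H m := by
  obtain ⟨g, hg, rfl⟩ := hX
  obtain ⟨k, hk, e⟩ := h
  refine ⟨g⁻¹ * k, H.mul_mem (H.inv_mem hg) hk, ?_⟩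
  rw [Units.val_mul, e, ← mul_assoc, Units.inv_mul, one_mul]

/-- cancel a right factor in `H` -/
theorem InM.of_mul_right {H : Subgroup (Matrix ι ι R)ˣ} {X m : Matrix ι ι R} (hX : InM H X)
    (h : InM H (m * X)) : InM H m := by
  obtain ⟨g, hg, rfl⟩ := hX
  obtain ⟨k, hk, e⟩ := h
  refine ⟨k * g⁻¹, H.mul_mem hk (H.inv_mem hg), ?_⟩
  rw [Units.val_mul, e, mul_assoc, Units.mul_inv, mul_one]

/-- `1 + v w` for a column `v` and a row `w`. -/
def ro (v w : ι → R) : Matrix ι ι R := 1 + vecMulVec v w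

theorem ro_mul (v w v' w' : ι → R) :
    ro v w * ro v' w' = 1 + vecMulVec v w + vecMulVec v' w' + vecMulVec v ((w ⬝ᵥ v') • w') := by
  rw [ro, ro, mul_add, mul_one, add_mul, one_mul, vecMulVec_mul_vecMulVec]
  abel

theorem ro_mul_of_orth {v w v' w' : ι → R} (h : w ⬝ᵥ v' = 0) :
    ro v w * ro v' w' = 1 + vecMulVec v w + vecMulVec v' w' := by
  rw [ro_mul, h, zero_smul, vecMulVec_zero, add_zero]

theorem ro_add_right {v w w' : ι → R} (h : w ⬝ᵥ v = 0) : ro v w * ro v w' = ro v (w + w') := by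
  rw [ro_mul_of_orth h, ro, vecMulVec_add, add_assoc]

theorem ro_add_left {v v' w : ι → R} (h : w ⬝ᵥ v' = 0) : ro v w * ro v' w = ro (v + v') w := by
  rw [ro_mul_of_orth h, ro, add_vecMulVec, add_assoc]

theorem ro_zero_right (v : ι → R) : ro v 0 = 1 := by simp [ro]

theorem ro_zero_left (w : ι → R) : ro 0 w = 1 := by simp [ro]

/-- conjugating `1 + v w` -/
theorem conj_ro (g : (Matrix ι ι R)ˣ) (v w : ι → R) :
    (g : Matrix ι ι R) * ro v w * ((g⁻¹ : (Matrix ι ι R)ˣ) : Matrix ι ι R) =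
      ro ((g : Matrix ι ι R) *ᵥ v) (w ᵥ* ((g⁻¹ : (Matrix ι ι R)ˣ) : Matrix ι ι R)) := by
  rw [ro, ro, mul_add, mul_one, add_mul, Units.mul_inv, mul_vecMulVec, vecMulVec_mul]

theorem single_eq_vecMulVec (i j : ι) (a : R) :
    (single i j a : Matrix ι ι R) = vecMulVec (Pi.single i a) (Pi.single j 1) := by
  ext k l
  simp only [single_apply, vecMulVec_apply, Pi.single_apply, mul_ite, mul_one, mul_zero]
  split_ifs <;> simp_all

theorem single_eq_vecMulVec' (i j : ι) (a : R) :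
    (single i j a : Matrix ι ι R) = vecMulVec (Pi.single i 1) (Pi.single j a) := by
  ext k l
  simp only [single_apply, vecMulVec_apply, Pi.single_apply, ite_mul, one_mul, zero_mul]
  split_ifs <;> simp_all

theorem coe_tv_ro {i j : ι} (h : i ≠ j) (r : R) :
    ((tv i j r : (Matrix ι ι R)ˣ) : Matrix ι ι R) = ro (Pi.single i r) (Pi.single j 1) := by
  rw [coe_tv h, single_eq_vecMulVec, ro]

theorem coe_tv_ro' {i j : ι} (h : i ≠ j) (r : R) :
    ((tv i j r : (Matrix ι ι R)ˣ) : Matrix ι ι R) = ro (Pi.single i 1) (Pi.single j r) := by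
  rw [coe_tv h, single_eq_vecMulVec', ro]

/-- a row operation: `1 + e_i r` with `r i = 0` -/
theorem InM_row {S : Set R} (i : ι) (r : ι → R) (hr : r i = 0)
    (hS : ∀ k, r k ∈ S) : InM (ElS ι S) (ro (Pi.single i 1) r) := by
  have key : ∀ s : Finset ι, InM (ElS ι S)
      (ro (Pi.single i 1) (∑ k ∈ s, (Pi.single k (r k) : ι → R))) := by
    intro s
    induction s using Finset.induction_on with
    | empty => rw [Finset.sum_empty, ro_zero_right]; exact InM.one _
    | insert k s hk ih =>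
      rw [Finset.sum_insert hk, ← ro_add_right]
      · refine InM.mul ?_ ih
        by_cases hik : i = k
        · subst hik
          rw [hr, Pi.single_zero, ro_zero_right]
          exact InM.one _
        · rw [← coe_tv_ro' hik]
          exact ⟨_, tv_memS _ _ (hS k), rfl⟩
      · by_cases hik : i = k
        · subst hik
          rw [hr, Pi.single_zero]; simp
        · simp [hik]
  have h := key Finset.univ
  have e : ∑ k, (Pi.single k (r k) : ι → R) = r := by
    ext l
    simp [Finset.sum_apply, Pi.single_apply]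
  rwa [e] at h

/-- a column operation: `1 + c e_i` with `c i = 0` -/
theorem InM_col {S : Set R} (i : ι) (c : ι → R) (hc : c i = 0)
    (hS : ∀ k, c k ∈ S) : InM (ElS ι S) (ro c (Pi.single i 1)) := by
  have key : ∀ s : Finset ι, InM (ElS ι S)
      (ro (∑ k ∈ s, (Pi.single k (c k) : ι → R)) (Pi.single i 1)) := by
    intro s
    induction s using Finset.induction_on with
    | empty => rw [Finset.sum_empty, ro_zero_left]; exact InM.one _
    | insert k s hk ih =>
      rw [Finset.sum_insert hk, ← ro_add_left]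
      · refine InM.mul ?_ ih
        by_cases hik : k = i
        · subst hik
          rw [hc, Pi.single_zero, ro_zero_left]
          exact InM.one _
        · rw [← coe_tv_ro hik]
          exact ⟨_, tv_memS _ _ (hS k), rfl⟩
      · rw [single_one_dotProduct]
        simp only [Finset.sum_apply, Pi.single_apply]
        rw [Finset.sum_ite_eq s i c]
        split_ifs
        · exact hc
        · rfl
  have h := key Finset.univ
  have e : ∑ k, (Pi.single k (c k) : ι → R) = c := by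
    ext l
    simp [Finset.sum_apply, Pi.single_apply]
  rwa [e] at h

end inM

end Pool.Agent.H85R2.PI
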