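import Pool.Agent.H85R2.PIElem

/-!
# Lifting normality of the elementary subgroup along a surjection
-/

set_option autoImplicit false

namespace Pool.Agent.H85R2.PI

open Matrix
open scoped commutatorElement

theorem comm_mul_mul {G : Type*} [Group G] {a b k l : G} (hka : Commute k a) (hkb : Commute k b)
    (hla : Commute l a) (hlb : Commute l b) (hkl : Commute k l) : ⁅a * k, b * l⁆ = ⁅a, b⁆ := by
  have h1 : (a * k) * (b * l) = (a * b) * (k * l) := by
    rw [mul_assoc, ← mul_assoc k b l, hkb.eq, mul_assoc b k l, ← mul_assoc]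
  have h2 : (b * l) * (a * k) = (b * a) * (k * l) := by
    rw [mul_assoc, ← mul_assoc l a k, hla.eq, mul_assoc a l k, ← mul_assoc, hkl.eq]
  have h3 : ∀ x y : G, ⁅x, y⁆ = (x * y) * (y * x)⁻¹ := by
    intro x y
    rw [commutatorElement_def, _root_.mul_inv_rev, ← mul_assoc]
  rw [h3, h3, h1, h2]
  group

theorem lift_abstract {G : Type*} [Group G] (E K F : Subgroup G) (hFn : F.Normal)
    (hKn : K.Normal) (hF : F ≤ E) (hEK : ∀ e ∈ E, ∀ k ∈ K, ⁅e, k⁆ ∈ F) (hperf : E ≤ ⁅E, E⁆)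
    (hconj : ∀ g : G, ∀ e ∈ E, ∃ e' ∈ E, e'⁻¹ * (g * e * g⁻¹) ∈ K) : E.Normal := by
  have hcore : E ≤ E.normalCore := by
    refine hperf.trans ?_
    rw [Subgroup.commutator_le]
    intro e1 h1 e2 h2 g
    obtain ⟨e1', h1', k1⟩ := hconj g e1 h1
    obtain ⟨e2', h2', k2⟩ := hconj g e2 h2
    set q := QuotientGroup.mk' F with hq
    have hcomm : ∀ e ∈ E, ∀ k ∈ K, Commute (q k) (q e) := by
      intro e he k hk
      have h := hEK e he k hk
      have h' : q ⁅e, k⁆ = 1 := (QuotientGroup.eq_one_iff _).2 h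
      rw [map_commutatorElement, commutatorElement_eq_one_iff_commute] at h'
      exact h'.symm
    have hcomm2 : ∀ e ∈ E, ∀ k ∈ K, Commute (q k) (q (g * e * g⁻¹)) := by
      intro e he k hk
      have hk' : g⁻¹ * k * g ∈ K := by
        have := hKn.conj_mem k hk g⁻¹
        simpa using this
      have h := hcomm e he _ hk'
      have h2 : q k = q g * q (g⁻¹ * k * g) * (q g)⁻¹ := by
        simp only [map_mul, map_inv]; group
      rw [h2, map_mul, map_mul, map_inv]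
      show q g * q (g⁻¹ * k * g) * (q g)⁻¹ * (q g * q e * (q g)⁻¹) =
        q g * q e * (q g)⁻¹ * (q g * q (g⁻¹ * k * g) * (q g)⁻¹)
      have h3 : q g * q (g⁻¹ * k * g) * (q g)⁻¹ * (q g * q e * (q g)⁻¹) =
        q g * (q (g⁻¹ * k * g) * q e) * (q g)⁻¹ := by group
      rw [h3, h.eq]
      group
    set a1 := g * e1 * g⁻¹
    set a2 := g * e2 * g⁻¹
    have hgc : g * ⁅e1, e2⁆ * g⁻¹ = ⁅a1, a2⁆ := by
      simp only [a1, a2, commutatorElement_def]
      group
    show g * ⁅e1, e2⁆ * g⁻¹ ∈ E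
    rw [hgc]
    -- in the quotient
    have hk12 : Commute (q (e1'⁻¹ * a1)) (q (e2'⁻¹ * a2)) := by
      rw [map_mul q e2'⁻¹ a2, map_inv]
      exact ((hcomm _ h2' _ k1).inv_right).mul_right (hcomm2 _ h2 _ k1)
    have hfin : q ⁅a1, a2⁆ = q ⁅e1', e2'⁆ := by
      have ea1 : a1 = e1' * (e1'⁻¹ * a1) := by group
      have ea2 : a2 = e2' * (e2'⁻¹ * a2) := by group
      rw [map_commutatorElement, map_commutatorElement, ea1, ea2, map_mul q e1', map_mul q e2']
      exact comm_mul_mul (hcomm _ h1' _ k1) (hcomm _ h2' _ k1) (hcomm _ h1' _ k2)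
        (hcomm _ h2' _ k2) hk12
    have hmem : ⁅e1', e2'⁆ ∈ E := by
      rw [commutatorElement_def]
      exact E.mul_mem (E.mul_mem (E.mul_mem h1' h2') (E.inv_mem h1')) (E.inv_mem h2')
    have hdiff : (⁅e1', e2'⁆)⁻¹ * ⁅a1, a2⁆ ∈ F := by
      rw [← QuotientGroup.eq]
      exact hfin.symm
    have := E.mul_mem hmem (hF hdiff)
    rwa [mul_inv_cancel_left] at this
  have : E = E.normalCore := le_antisymm hcore E.normalCore_le
  rw [this]
  infer_instance

theorem El_perfect {ι R : Type*} [Fintype ι] [DecidableEq ι] [Ring R]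
    (h3 : ∀ i j : ι, ∃ k : ι, k ≠ i ∧ k ≠ j) : El ι R ≤ ⁅El ι R, El ι R⁆ := by
  conv_lhs => rw [El]
  rw [Subgroup.closure_le]
  rintro _ ⟨i, j, r, rfl⟩
  by_cases hij : i = j
  · subst hij
    rw [tv_self]
    exact Subgroup.one_mem _
  · obtain ⟨k, hki, hkj⟩ := h3 i j
    have := tv_commutator (R := R) (Ne.symm hki) hkj hij r 1
    rw [mul_one] at this
    rw [← this]
    exact Subgroup.commutator_mem_commutator (tv_mem _ _ _) (tv_mem _ _ _)

theorem lift_normal {ι R S : Type*} [Fintype ι] [DecidableEq ι] [Ring R] [Ring S]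
    (h3 : ∀ i j : ι, ∃ k : ι, k ≠ i ∧ k ≠ j) (φ : R →+* S) (hφ : Function.Surjective φ)
    (F : Subgroup (Matrix ι ι R)ˣ) (hFn : F.Normal) (hF : F ≤ El ι R)
    (hEK : ∀ e ∈ El ι R, ∀ k : (Matrix ι ι R)ˣ, glm ι φ k = 1 → ⁅e, k⁆ ∈ F)
    (hS : (El ι S).Normal) : (El ι R).Normal := by
  refine lift_abstract (El ι R) (glm ι φ).ker F hFn inferInstance hF
    (fun e he k hk => hEK e he k hk) (El_perfect h3) ?_
  intro g e he
  have h1 : glm ι φ (g * e * g⁻¹) ∈ El ι S := by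
    rw [map_mul, map_mul, map_inv]
    exact hS.conj_mem _ (glm_El_mem φ he) _
  obtain ⟨e', he', h2⟩ := glm_El_surj φ hφ h1
  refine ⟨e', he', ?_⟩
  rw [MonoidHom.mem_ker, map_mul, map_inv, h2, inv_mul_cancel]

end Pool.Agent.H85R2.PI
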