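import Pool.Agent.H85R2.PIStep
import Pool.Agent.H903R2.RadNormal

/-!
# The main induction
-/

set_option autoImplicit false

namespace Pool.Agent.H85R2.PI

open Matrix Polynomial
open scoped commutatorElement

theorem PId_of_surj {R S : Type*} [Ring R] [Ring S] (φ : R →+* S) (hφ : Function.Surjective φ)
    {D : ℕ} {c : Equiv.Perm (Fin D) → ℤ} (h : PId R D c) : PId S D c := by
  intro x
  choose y hy using fun i => hφ (x i)
  have h1 := congrArg φ (h y)
  rw [map_zero, map_sum] at h1
  rw [← h1]
  refine Finset.sum_congr rfl fun σ _ => ?_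
  rw [map_mul, map_intCast, map_list_prod, List.map_ofFn]
  congr 3
  ext i
  exact (hy _).symm

theorem Cls_of_surj {R S : Type} [Ring R] [Ring S] (φ : R →+* S) (hφ : Function.Surjective φ)
    (d d' : ℕ) (hcls : Cls R d)
    (hsub : ∀ (e : ℕ) (K : Type) [Field K] (ρ : R →+* Matrix (Fin e) (Fin e) K), e ≤ d →
      (∀ r, φ r = 0 → ρ r = 0) → Submodule.span K (Set.range ρ) = ⊤ → e ≤ d') : Cls S d' := by
  intro L' hL'
  have hL : IsCoatom (Ideal.comap φ L') := by
    have hm : Ideal.IsMaximal (L' : Ideal S) := ⟨hL'⟩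
    exact (Ideal.comap_isMaximal_of_surjective φ hφ (K := L')).out
  obtain ⟨e, hed, K, _, ρ, h1, h2⟩ := hcls _ hL
  have hker : ∀ r, φ r = 0 → ρ r = 0 := by
    intro r hr
    rw [h1, smul_quot_iff]
    intro a
    show φ (r * a) ∈ L'
    rw [map_mul, hr, zero_mul]
    exact L'.zero_mem
  have hle : RingHom.ker φ ≤ RingHom.ker ρ := fun r hr => hker r hr
  refine ⟨e, hsub e K ρ hed hker h2, K, _, φ.liftOfSurjective hφ ⟨ρ, hle⟩, ?_, ?_⟩
  · intro s
    obtain ⟨r, rfl⟩ := hφ s
    rw [RingHom.liftOfSurjective_comp_apply, smul_quot_iff]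
    show ρ r = 0 ↔ _
    rw [h1, smul_quot_iff]
    constructor
    · intro h a
      obtain ⟨b, rfl⟩ := hφ a
      rw [← map_mul]
      exact h b
    · intro h a
      show φ (r * a) ∈ L'
      rw [map_mul]
      exact h _
  · have : Set.range (φ.liftOfSurjective hφ ⟨ρ, hle⟩) = Set.range ρ := by
      ext m
      constructor
      · rintro ⟨s, rfl⟩
        obtain ⟨r, rfl⟩ := hφ s
        exact ⟨r, (RingHom.liftOfSurjective_comp_apply φ hφ ⟨ρ, hle⟩ r).symm⟩
      · rintro ⟨r, rfl⟩
        exact ⟨φ r, RingHom.liftOfSurjective_comp_apply φ hφ ⟨ρ, hle⟩ r⟩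
    rw [this, h2]

/-- the Jacobson radical as an ideal -/
def jac (R : Type*) [Ring R] : Ideal R where
  carrier := {r | ∀ L : Submodule R R, IsCoatom L → ∀ a : R, r * a ∈ L}
  add_mem' := by
    intro x y hx hy L hL a
    rw [add_mul]
    exact L.add_mem (hx L hL a) (hy L hL a)
  zero_mem' := by
    intro L _ a
    rw [zero_mul]
    exact L.zero_mem
  smul_mem' := by
    intro b x hx L hL a
    rw [smul_eq_mul, mul_assoc]
    exact L.smul_mem b (hx L hL a)

instance jac_twoSided (R : Type*) [Ring R] : (jac R).IsTwoSided where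
  mul_mem_of_left := by
    intro x b hx L hL a
    rw [mul_assoc]
    exact hx L hL (b * a)

theorem exists_left_inv {R : Type*} [Ring R] {x : R} (hx : x ∈ jac R) : ∃ y, y * (1 + x) = 1 := by
  have htop : Ideal.span {1 + x} = ⊤ := by
    by_contra hne
    obtain ⟨L, hL, hle⟩ := Ideal.exists_le_maximal _ hne
    have h1 : 1 + x ∈ L := hle (Ideal.subset_span rfl)
    have h2 : x ∈ L := by simpa using hx L hL.out 1
    have h3 : (1 : R) ∈ L := by simpa using L.sub_mem h1 h2
    exact hL.ne_top ((Ideal.eq_top_iff_one L).2 h3)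
  have h1 : (1 : R) ∈ Ideal.span {1 + x} := by rw [htop]; trivial
  obtain ⟨y, hy⟩ := Submodule.mem_span_singleton.1 h1
  exact ⟨y, hy⟩

theorem isUnit_of_jac {R : Type*} [Ring R] {x : R} (hx : x ∈ jac R) : IsUnit (1 + x) := by
  obtain ⟨y, hy⟩ := exists_left_inv hx
  have h1 : -(y * x) ∈ jac R := (jac R).neg_mem ((jac R).mul_mem_left _ hx)
  obtain ⟨z, hz⟩ := exists_left_inv h1
  have h2 : 1 + -(y * x) = y := by
    rw [← hy]; noncomm_ring
  rw [h2] at hz
  have h3 : z = 1 + x := by
    calc z = z * (y * (1 + x)) := by rw [hy, mul_one]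
      _ = (z * y) * (1 + x) := by rw [mul_assoc]
      _ = 1 + x := by rw [hz, one_mul]
  rw [h3] at hz
  exact ⟨⟨1 + x, y, hz, hy⟩, rfl⟩

theorem jac_quot {R : Type*} [Ring R] (s : R ⧸ jac R)
    (hs : ∀ L : Submodule (R ⧸ jac R) (R ⧸ jac R), IsCoatom L → ∀ a, s * a ∈ L) : s = 0 := by
  obtain ⟨r, rfl⟩ := Ideal.Quotient.mk_surjective s
  rw [Ideal.Quotient.eq_zero_iff_mem]
  intro L hL a
  have hker : ∀ x ∈ jac R, x ∈ L := fun x hx => by simpa using hx L hL 1
  have hm : Ideal.IsMaximal (L : Ideal R) := ⟨hL⟩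
  have hcm : Ideal.comap (Ideal.Quotient.mk (jac R)) (Ideal.map (Ideal.Quotient.mk (jac R)) L) = L := by
    rw [Ideal.comap_map_of_surjective _ Ideal.Quotient.mk_surjective]
    apply le_antisymm
    · refine sup_le le_rfl ?_
      intro x hx
      exact hker x (Ideal.Quotient.eq_zero_iff_mem.1 ((Submodule.mem_bot (R ⧸ jac R)).1 hx))
    · exact le_sup_left
  rcases Ideal.map_eq_top_or_isMaximal_of_surjective (Ideal.Quotient.mk (jac R))
    Ideal.Quotient.mk_surjective hm with h | h
  · exfalso
    rw [h, Ideal.comap_top] at hcm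
    exact hL.1 hcm.symm
  · have := hs _ h.out (Ideal.Quotient.mk _ a)
    rw [← map_mul] at this
    rw [← hcm]
    exact this

theorem main_ind {ι : Type*} [Fintype ι] [DecidableEq ι] (h3 : ∀ i j : ι, ∃ k : ι, k ≠ i ∧ k ≠ j)
    {D : ℕ} {c : Equiv.Perm (Fin D) → ℤ} (hc : c 1 = 1) :
    ∀ (d : ℕ) (R : Type) [Ring R], PId R D c → Cls R d → (El ι R).Normal := by
  intro d
  induction d with
  | zero =>
    intro R _ hR hcls
    have hsub : Subsingleton R := by
      have hno : ∀ L : Submodule R R, ¬ IsCoatom L := by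
        intro L hL
        obtain ⟨e, he, K, _, ρ, h1, -⟩ := hcls L hL
        obtain rfl : e = 0 := Nat.le_zero.1 he
        have h0 : ρ 1 = 0 := Subsingleton.elim _ _
        rw [h1, smul_quot_iff] at h0
        have := h0 1
        rw [mul_one] at this
        exact hL.1 ((Ideal.eq_top_iff_one L).2 this)
      have htop : (⊥ : Ideal R) = ⊤ := by
        by_contra hne
        obtain ⟨L, hL, -⟩ := Ideal.exists_le_maximal _ hne
        exact hno L hL.out
      have h1 : (1 : R) ∈ (⊥ : Ideal R) := by rw [htop]; trivial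
      have h1' : (1 : R) = 0 := h1
      exact ⟨fun a b => by rw [← mul_one a, ← mul_one b, h1', mul_zero, mul_zero]⟩
    refine ⟨fun n hn g => ?_⟩
    have : g * n * g⁻¹ = n := by
      ext i j
      exact Subsingleton.elim _ _
    rw [this]; exact hn
  | succ d ih =>
    intro R _ hR hcls
    refine Pool.Agent.H903R2.Rad.rad_normal_of h3 (Ideal.Quotient.mk (jac R)) ?_ ?_
    · intro x hx
      exact isUnit_of_jac (Ideal.Quotient.eq_zero_iff_mem.1 hx)
    · -- the quotient
      intro F hFn hF hEK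
      refine lift_normal h3 (Ideal.Quotient.mk (jac R)) Ideal.Quotient.mk_surjective F hFn hF hEK ?_
      have hS : PId (R ⧸ jac R) D c := PId_of_surj _ Ideal.Quotient.mk_surjective hR
      have hclsS : Cls (R ⧸ jac R) (d + 1) :=
        Cls_of_surj _ Ideal.Quotient.mk_surjective (d + 1) (d + 1) hcls
          (fun e K _ ρ he _ _ => he)
      refine step h3 hc hS (d + 1) (Nat.succ_pos d) hclsS jac_quot ?_
      refine ih _ (PId_of_surj _ Ideal.Quotient.mk_surjective hS) ?_
      refine Cls_of_surj _ Ideal.Quotient.mk_surjective (d + 1) d hclsS ?_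
      intro e K _ ρ he hker hspan
      by_contra hlt
      obtain rfl : e = d + 1 := by omega
      obtain ⟨x, y, y', hx, hy, hy', hne⟩ := Pool.Agent.H317R2.PI.cap_ne_of_span (d + 1) (Nat.succ_pos d)
        (Set.range ρ) hspan
      choose x₀ hx₀ using hx
      choose y₀ hy₀ using hy
      choose y₁ hy₁ using hy'
      set J := capIdeal (R ⧸ jac R) ((d + 1) * (d + 1)) with hJdef
      set c0 := cap ((d + 1) * (d + 1)) x₀ y₀ y₁ with hc0
      have hc0J : c0 ∈ J := cap_mem _ _ _
      have hρc0 : ρ c0 ≠ 0 := by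
        rw [hc0, Pool.Agent.H317R2.PI.cap_map]
        simpa only [hx₀, hy₀, hy₁] using hne
      have hz : ∀ m : Matrix (Fin (d + 1)) (Fin (d + 1)) K, ρ c0 * m * ρ c0 = 0 := by
        intro m
        have hm : m ∈ Submodule.span K (Set.range ρ) := by rw [hspan]; trivial
        induction hm using Submodule.span_induction with
        | mem z hz =>
          obtain ⟨r, rfl⟩ := hz
          rw [← map_mul, ← map_mul]
          apply hker
          rw [Ideal.Quotient.eq_zero_iff_mem]
          exact Ideal.mul_mem_mul (J.mul_mem_right r hc0J) hc0J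
        | zero => simp
        | add z w _ _ h1 h2 => rw [mul_add, add_mul, h1, h2, add_zero]
        | smul k z _ h => rw [mul_smul_comm, smul_mul_assoc, h, smul_zero]
      apply hρc0
      ext a b
      have h := congrFun (congrFun (hz (single b a 1)) a) b
      rw [Matrix.mul_assoc, Matrix.mul_apply, Finset.sum_eq_single b] at h
      · rw [single_mul_apply_same, one_mul] at h
        exact mul_self_eq_zero.1 h
      · intro x _ hx
        rw [single_mul_apply_of_ne (h := hx), mul_zero]
      · intro hb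
        exact absurd (Finset.mem_univ b) hb

end Pool.Agent.H85R2.PI
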