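import Pool.Agent.H85R2.PILift
import Pool.Agent.H431R2.ZLem
import Pool.Agent.H317R2.PI.Cap
import Pool.Agent.H754R2.PISus
import Pool.Agent.H928R2.PIDet3
import Pool.Agent.H317R2.PI.SRFin

/-!
# The induction step
-/

set_option autoImplicit false

namespace Pool.Agent.H85R2.PI

open Matrix Polynomial
open scoped commutatorElement

/-- product of representations -/
def piHom {X R : Type*} [Ring R] {K : X → Type*} [∀ x, Field (K x)] {d : ℕ}
    (ρ : ∀ x, R →+* Matrix (Fin d) (Fin d) (K x)) :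
    R →+* Matrix (Fin d) (Fin d) (∀ x, K x) where
  toFun r := Matrix.of fun a b x => ρ x r a b
  map_one' := by
    ext a b x
    simp only [map_one, of_apply, Matrix.one_apply]
    split_ifs <;> rfl
  map_mul' r s := by
    ext a b x
    simp [Matrix.mul_apply, Finset.sum_apply]
  map_zero' := by
    ext a b x
    simp
  map_add' r s := by
    ext a b x
    simp

theorem piHom_eq_zero {X R : Type*} [Ring R] {K : X → Type*} [∀ x, Field (K x)] {d : ℕ}
    (ρ : ∀ x, R →+* Matrix (Fin d) (Fin d) (K x)) (r : R) :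
    piHom ρ r = 0 ↔ ∀ x, ρ x r = 0 := by
  constructor
  · intro h x
    ext a b
    exact congrFun (congrFun (congrFun h a) b) x
  · intro h
    ext a b x
    show ρ x r a b = 0
    rw [h x]
    rfl

section im

variable {R C : Type*} [Ring R] [CommRing C] {d : ℕ} (π : R →+* Matrix (Fin d) (Fin d) C)
  (J : Ideal R)

/-- `π` with values in `T`. -/
def piT : R →+* TT π J where
  toFun r := ⟨π r, Algebra.subset_adjoin ⟨r, rfl⟩⟩
  map_one' := by ext1; exact map_one π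
  map_mul' r s := by ext1; exact map_mul π r s
  map_zero' := by ext1; exact map_zero π
  map_add' r s := by ext1; exact map_add π r s

theorem piT_coe (r : R) : ((piT π J r : TT π J) : Matrix (Fin d) (Fin d) C) = π r := rfl

theorem imI_left (J' : Ideal R)
    (hJ' : ∀ γ ∈ Gam π J, ∀ x ∈ J', ∃ y ∈ J', γ • π x = π y)
    (t : Matrix (Fin d) (Fin d) C) (ht : t ∈ TT π J) :
    ∀ r ∈ J', ∃ s ∈ J', t * π r = π s := by
  refine Algebra.adjoin_induction (p := fun t _ => ∀ r ∈ J', ∃ s ∈ J', t * π r = π s)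
    ?_ ?_ ?_ ?_ ht
  · rintro _ ⟨a, rfl⟩ r hr
    exact ⟨a * r, J'.mul_mem_left _ hr, (map_mul π a r).symm⟩
  · intro γ r hr
    obtain ⟨y, hy, h⟩ := hJ' γ.1 γ.2 r hr
    refine ⟨y, hy, ?_⟩
    rw [← h, ← Algebra.smul_def]
    rfl
  · intro x y _ _ hx hy r hr
    obtain ⟨a, ha, h1⟩ := hx r hr
    obtain ⟨b, hb, h2⟩ := hy r hr
    exact ⟨a + b, J'.add_mem ha hb, by rw [add_mul, h1, h2, map_add]⟩
  · intro x y _ _ hx hy r hr
    obtain ⟨b, hb, h2⟩ := hy r hr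
    obtain ⟨a, ha, h1⟩ := hx b hb
    exact ⟨a, ha, by rw [mul_assoc, h2, h1]⟩

theorem imI_right (J' : Ideal R) [J'.IsTwoSided]
    (hJ' : ∀ γ ∈ Gam π J, ∀ x ∈ J', ∃ y ∈ J', γ • π x = π y)
    (t : Matrix (Fin d) (Fin d) C) (ht : t ∈ TT π J) :
    ∀ r ∈ J', ∃ s ∈ J', π r * t = π s := by
  refine Algebra.adjoin_induction (p := fun t _ => ∀ r ∈ J', ∃ s ∈ J', π r * t = π s)
    ?_ ?_ ?_ ?_ ht
  · rintro _ ⟨a, rfl⟩ r hr
    exact ⟨r * a, J'.mul_mem_right _ hr, (map_mul π r a).symm⟩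
  · intro γ r hr
    obtain ⟨y, hy, h⟩ := hJ' γ.1 γ.2 r hr
    refine ⟨y, hy, ?_⟩
    rw [← h, ← Algebra.commutes, ← Algebra.smul_def]
    rfl
  · intro x y _ _ hx hy r hr
    obtain ⟨a, ha, h1⟩ := hx r hr
    obtain ⟨b, hb, h2⟩ := hy r hr
    exact ⟨a + b, J'.add_mem ha hb, by rw [mul_add, h1, h2, map_add]⟩
  · intro x y _ _ hx hy r hr
    obtain ⟨b, hb, h2⟩ := hx r hr
    obtain ⟨a, ha, h1⟩ := hy b hb
    exact ⟨a, ha, by rw [← mul_assoc, h2, h1]⟩

/-- image ideal `π(J')` in `T` -/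
def imI (J' : Ideal R) (hJ' : ∀ γ ∈ Gam π J, ∀ x ∈ J', ∃ y ∈ J', γ • π x = π y) :
    Ideal (TT π J) where
  carrier := {t | ∃ r ∈ J', π r = (t : Matrix (Fin d) (Fin d) C)}
  add_mem' := by
    rintro a b ⟨r, hr, h1⟩ ⟨s, hs, h2⟩
    exact ⟨r + s, J'.add_mem hr hs, by rw [map_add, h1, h2]; rfl⟩
  zero_mem' := ⟨0, J'.zero_mem, by rw [map_zero]; rfl⟩
  smul_mem' := by
    rintro t x ⟨r, hr, h1⟩
    obtain ⟨s, hs, h2⟩ := imI_left π J J' hJ' t.1 t.2 r hr
    refine ⟨s, hs, ?_⟩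
    rw [← h2, h1]
    rfl

theorem mem_imI (J' : Ideal R) (hJ' : ∀ γ ∈ Gam π J, ∀ x ∈ J', ∃ y ∈ J', γ • π x = π y)
    (t : TT π J) : t ∈ imI π J J' hJ' ↔ ∃ r ∈ J', π r = (t : Matrix (Fin d) (Fin d) C) :=
  Iff.rfl

theorem imI_twoSided (J' : Ideal R) [J'.IsTwoSided]
    (hJ' : ∀ γ ∈ Gam π J, ∀ x ∈ J', ∃ y ∈ J', γ • π x = π y) :
    (imI π J J' hJ').IsTwoSided where
  mul_mem_of_left := by
    rintro x t ⟨r, hr, h1⟩
    obtain ⟨s, hs, h2⟩ := imI_right π J J' hJ' t.1 t.2 r hr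
    refine ⟨s, hs, ?_⟩
    rw [← h2, h1]
    rfl

theorem stab_mul (γ : C) (hγ : γ ∈ Gam π J) [J.IsTwoSided] :
    ∀ x ∈ J * J, ∃ y ∈ J * J, γ • π x = π y := by
  intro x hx
  refine Submodule.mul_induction_on hx ?_ ?_
  · intro a ha b hb
    obtain ⟨y, hy, h⟩ := hγ a ha
    exact ⟨y * b, Ideal.mul_mem_mul hy hb, by rw [map_mul, ← smul_mul_assoc, h, map_mul]⟩
  · rintro a b ⟨y, hy, h⟩ ⟨z, hz, h'⟩
    exact ⟨y + z, (J * J).add_mem hy hz, by rw [map_add, smul_add, h, h', map_add]⟩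

end im

section dbl

variable {ι : Type*} [Fintype ι] [DecidableEq ι] {Γ T : Type*} [CommRing Γ] [Ring T] [Algebra Γ T]
  (I : Ideal T) [I.IsTwoSided]

theorem p1_apply (x : Dbl Γ I) : p1 Γ I x = x.1.1 := rfl

theorem p2_apply (x : Dbl Γ I) : p2 Γ I x = x.1.2 := rfl

/-- diagonal embedding -/
def dia : T →+* Dbl Γ I where
  toFun t := ⟨(t, t), by show t - t ∈ I; rw [sub_self]; exact I.zero_mem⟩
  map_one' := rfl
  map_mul' _ _ := rfl
  map_zero' := rfl
  map_add' _ _ := rfl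

theorem p1_dia (g : (Matrix ι ι T)ˣ) : glm ι (p1 Γ I) (glm ι (dia (Γ := Γ) I) g) = g := by
  ext i j; rfl

theorem p2_dia (g : (Matrix ι ι T)ˣ) : glm ι (p2 Γ I) (glm ι (dia (Γ := Γ) I) g) = g := by
  ext i j; rfl

theorem dbl_matrix_ext {m m' : Matrix ι ι (Dbl Γ I)} (h1 : m.map (p1 Γ I) = m'.map (p1 Γ I))
    (h2 : m.map (p2 Γ I) = m'.map (p2 Γ I)) : m = m' := by
  ext i j
  · exact congrFun (congrFun h1 i) j
  · exact congrFun (congrFun h2 i) j

/-- the unit `(k, 1)` -/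
def pairU (k : (Matrix ι ι T)ˣ)
    (h : ∀ i j, (k : Matrix ι ι T) i j - (1 : Matrix ι ι T) i j ∈ I)
    (h' : ∀ i j, ((k⁻¹ : (Matrix ι ι T)ˣ) : Matrix ι ι T) i j - (1 : Matrix ι ι T) i j ∈ I) :
    (Matrix ι ι (Dbl Γ I))ˣ where
  val := Matrix.of fun i j => ⟨((k : Matrix ι ι T) i j, (1 : Matrix ι ι T) i j), h i j⟩
  inv := Matrix.of fun i j =>
    ⟨(((k⁻¹ : (Matrix ι ι T)ˣ) : Matrix ι ι T) i j, (1 : Matrix ι ι T) i j), h' i j⟩
  val_inv := by
    apply dbl_matrix_ext I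
    · rw [Matrix.map_mul, Matrix.map_one _ (map_zero _) (map_one _)]
      exact Units.mul_inv k
    · rw [Matrix.map_mul, Matrix.map_one _ (map_zero _) (map_one _)]
      exact Matrix.mul_one _
  inv_val := by
    apply dbl_matrix_ext I
    · rw [Matrix.map_mul, Matrix.map_one _ (map_zero _) (map_one _)]
      exact Units.inv_mul k
    · rw [Matrix.map_mul, Matrix.map_one _ (map_zero _) (map_one _)]
      exact Matrix.mul_one _

theorem p1_pairU (k : (Matrix ι ι T)ˣ) (h) (h') :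
    glm ι (p1 Γ I) (pairU I k h h') = k := by
  ext i j; rfl

theorem p2_pairU (k : (Matrix ι ι T)ˣ) (h) (h') :
    glm ι (p2 Γ I) (pairU I k h h') = 1 := by
  ext i j; rfl

/-- the relative elementary group `E(T, I)`, via the double -/
def RelS (ι : Type*) [Fintype ι] [DecidableEq ι] (Γ : Type*) {T : Type*} [CommRing Γ] [Ring T]
    [Algebra Γ T] (I : Ideal T) [I.IsTwoSided] : Subgroup (Matrix ι ι T)ˣ :=
  (El ι (Dbl Γ I) ⊓ (glm ι (p2 Γ I)).ker).map (glm ι (p1 Γ I))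

theorem mem_RelS {a : (Matrix ι ι T)ˣ} :
    a ∈ RelS ι Γ I ↔ ∃ e ∈ El ι (Dbl Γ I), glm ι (p2 Γ I) e = 1 ∧ glm ι (p1 Γ I) e = a := by
  constructor
  · rintro ⟨e, ⟨he, h2⟩, h1⟩
    exact ⟨e, he, h2, h1⟩
  · rintro ⟨e, he, h2, h1⟩
    exact ⟨e, ⟨he, h2⟩, h1⟩

theorem RelS_conj (hn : (El ι (Dbl Γ I)).Normal) {a : (Matrix ι ι T)ˣ} (ha : a ∈ RelS ι Γ I)
    (x : (Matrix ι ι T)ˣ) : x * a * x⁻¹ ∈ RelS ι Γ I := by
  rw [mem_RelS] at ha ⊢
  obtain ⟨e, he, h2, h1⟩ := ha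
  refine ⟨glm ι (dia (Γ := Γ) I) x * e * (glm ι (dia (Γ := Γ) I) x)⁻¹, hn.conj_mem _ he _, ?_, ?_⟩
  · rw [map_mul, map_mul, map_inv, p2_dia, h2, mul_one, mul_inv_cancel]
  · rw [map_mul, map_mul, map_inv, p1_dia, h1]

theorem RelS_comm (hn : (El ι (Dbl Γ I)).Normal) {e k : (Matrix ι ι T)ˣ} (he : e ∈ El ι T)
    (h : ∀ i j, (k : Matrix ι ι T) i j - (1 : Matrix ι ι T) i j ∈ I)
    (h' : ∀ i j, ((k⁻¹ : (Matrix ι ι T)ˣ) : Matrix ι ι T) i j - (1 : Matrix ι ι T) i j ∈ I) :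
    ⁅e, k⁆ ∈ RelS ι Γ I := by
  rw [mem_RelS]
  have hE : glm ι (dia (Γ := Γ) I) e ∈ El ι (Dbl Γ I) := glm_El_mem _ he
  refine ⟨⁅glm ι (dia (Γ := Γ) I) e, pairU I k h h'⁆, ?_, ?_, ?_⟩
  · rw [commutatorElement_def, mul_assoc, mul_assoc]
    refine Subgroup.mul_mem _ hE ?_
    rw [← mul_assoc]
    exact hn.conj_mem _ (Subgroup.inv_mem _ hE) _
  · rw [map_commutatorElement, p2_dia, p2_pairU]
    simp
  · rw [map_commutatorElement, p1_dia, p1_pairU]

end dbl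

section core

variable {ι : Type*} [Fintype ι] [DecidableEq ι] {R C : Type*} [Ring R] [CommRing C] {d : ℕ}

theorem ElS_cong (J : Ideal R) [J.IsTwoSided] {g : (Matrix ι ι R)ˣ} (hg : g ∈ ElS ι (J : Set R)) :
    glm ι (Ideal.Quotient.mk J) g = 1 := by
  have : ElS ι (J : Set R) ≤ (glm ι (Ideal.Quotient.mk J)).ker := by
    rw [ElS, Subgroup.closure_le]
    rintro _ ⟨i, j, r, hr, rfl⟩
    show glm ι (Ideal.Quotient.mk J) (tv i j r) = 1
    rw [glm_tv, Ideal.Quotient.eq_zero_iff_mem.2 hr, tv_zero]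
  exact this hg

theorem glm_mk_iff (J : Ideal R) [J.IsTwoSided] (g : (Matrix ι ι R)ˣ) :
    glm ι (Ideal.Quotient.mk J) g = 1 ↔
      ∀ i j, (g : Matrix ι ι R) i j - (1 : Matrix ι ι R) i j ∈ J := by
  rw [glm_eq_one_iff]
  refine forall_congr' fun i => forall_congr' fun j => ?_
  rw [← Ideal.Quotient.eq_zero_iff_mem, map_sub, sub_eq_zero]
  rw [Matrix.one_apply]
  split_ifs <;> simp

theorem piT_entry (π : R →+* Matrix (Fin d) (Fin d) C) (J : Ideal R) (g : (Matrix ι ι R)ˣ)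
    (i j : ι) :
    ((((glm ι (piT π J) g : (Matrix ι ι (TT π J))ˣ) : Matrix ι ι (TT π J)) i j : TT π J) :
      Matrix (Fin d) (Fin d) C) = π ((g : Matrix ι ι R) i j) := rfl

theorem step_core (h3 : ∀ i j : ι, ∃ k : ι, k ≠ i ∧ k ≠ j)
    (π : R →+* Matrix (Fin d) (Fin d) C) (J : Ideal R) [J.IsTwoSided]
    (hinj : ∀ r ∈ J, π r = 0 → r = 0)
    (hT : ∀ (I : Ideal (TT π J)) [I.IsTwoSided], (El ι (Dbl (Gam π J) I)).Normal)
    (IH : (El ι (R ⧸ (J * J))).Normal) : (El ι R).Normal := by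
  have hst1 : ∀ γ ∈ Gam π J, ∀ x ∈ J, ∃ y ∈ J, γ • π x = π y := fun γ hγ => hγ
  have hst2 : ∀ γ ∈ Gam π J, ∀ x ∈ J * J, ∃ y ∈ J * J, γ • π x = π y :=
    fun γ hγ => stab_mul π J γ hγ
  have hJJ : J * J ≤ J := Ideal.mul_le_right
  set cT := imI π J J hst1 with hcT
  set IT := imI π J (J * J) hst2 with hIT
  have : cT.IsTwoSided := imI_twoSided π J J hst1
  have : IT.IsTwoSided := imI_twoSided π J (J * J) hst2
  have hcI : ∀ x ∈ IT, x ∈ AddSubgroup.closure {z : TT π J | ∃ a ∈ cT, ∃ b ∈ cT, z = a * b} := by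
    rintro x ⟨r, hr, hx⟩
    have key : ∀ r ∈ J * J, piT π J r ∈
        AddSubgroup.closure {z : TT π J | ∃ a ∈ cT, ∃ b ∈ cT, z = a * b} := by
      intro r hr
      refine Submodule.mul_induction_on hr ?_ ?_
      · intro a ha b hb
        exact AddSubgroup.subset_closure
          ⟨piT π J a, ⟨a, ha, rfl⟩, piT π J b, ⟨b, hb, rfl⟩, map_mul _ _ _⟩
      · intro a b ha hb
        rw [map_add]
        exact AddSubgroup.add_mem _ ha hb
    have hx' : x = piT π J r := by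
      ext1
      rw [piT_coe, hx]
    rw [hx']
    exact key r hr
  have hDn := hT IT
  set φ := Ideal.Quotient.mk (J * J) with hφ
  let F : Subgroup (Matrix ι ι R)ˣ :=
    (glm ι φ).ker ⊓ (RelS ι (Gam π J) IT).comap (glm ι (piT π J))
  refine lift_normal h3 φ Ideal.Quotient.mk_surjective F ?_ ?_ ?_ IH
  · -- normality of F
    refine ⟨?_⟩
    rintro g ⟨hg, hg'⟩ x
    refine ⟨(inferInstance : ((glm ι φ).ker).Normal).conj_mem _ hg _, ?_⟩
    show glm ι (piT π J) (x * g * x⁻¹) ∈ RelS ι (Gam π J) IT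
    rw [map_mul, map_mul, map_inv]
    exact RelS_conj IT hDn hg' _
  · -- F ≤ E
    rintro g ⟨hg, hg'⟩
    obtain ⟨e, he, h2, h1⟩ := (mem_RelS IT).1 hg'
    have hZ := Pool.Agent.H431R2.ZLem.Zlem h3 cT IT hcI e he h2
    rw [h1] at hZ
    obtain ⟨g1, hg1, hgg⟩ := glm_ElS_surj (piT π J) (J : Set R) (cT : Set (TT π J))
      (by
        rintro b ⟨r, hr, hb⟩
        exact ⟨r, hr, by ext1; rw [piT_coe, hb]⟩) hZ
    have hgJ := (glm_mk_iff J g1).1 (ElS_cong J hg1)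
    have hgJ' := (glm_mk_iff (J * J) g).1 hg
    have : g = g1 := by
      ext i j
      rw [← sub_eq_zero]
      apply hinj
      · have := J.sub_mem (hJJ (hgJ' i j)) (hgJ i j)
        rwa [sub_sub_sub_cancel_right] at this
      · rw [map_sub, sub_eq_zero]
        rw [← piT_entry π J g, ← piT_entry π J g1, hgg]
    rw [this]
    exact ElS_le _ hg1
  · -- commutators
    intro e he k hk
    have hk1 := (glm_mk_iff (J * J) k).1 hk
    have hk2 := (glm_mk_iff (J * J) k⁻¹).1 (by rw [map_inv, hk, inv_one])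
    have conv : ∀ u : (Matrix ι ι R)ˣ,
        (∀ i j, (u : Matrix ι ι R) i j - (1 : Matrix ι ι R) i j ∈ J * J) →
        ∀ i j, ((glm ι (piT π J) u : (Matrix ι ι (TT π J))ˣ) : Matrix ι ι (TT π J)) i j -
          (1 : Matrix ι ι (TT π J)) i j ∈ IT := by
      intro u hu i j
      refine ⟨_, hu i j, ?_⟩
      rw [map_sub]
      have h1 : π ((1 : Matrix ι ι R) i j) =
          (((1 : Matrix ι ι (TT π J)) i j : TT π J) : Matrix (Fin d) (Fin d) C) := by
        rw [Matrix.one_apply, Matrix.one_apply]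
        split_ifs
        · rw [map_one]; rfl
        · rw [map_zero]; rfl
      rw [h1]
      rfl
    refine ⟨?_, ?_⟩
    · show glm ι φ ⁅e, k⁆ = 1
      rw [map_commutatorElement, hk]
      simp
    · show glm ι (piT π J) ⁅e, k⁆ ∈ RelS ι (Gam π J) IT
      rw [map_commutatorElement]
      refine RelS_comm IT hDn (glm_El_mem _ he) (conv k hk1) ?_
      rw [← map_inv]
      exact conv k⁻¹ hk2

end core

section step

theorem smul_quot_iff {R : Type*} [Ring R] (L : Submodule R R) (r : R) :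
    (∀ m : R ⧸ L, r • m = 0) ↔ ∀ a : R, r * a ∈ L := by
  constructor
  · intro h a
    have := h (Submodule.Quotient.mk a)
    rw [← Submodule.Quotient.mk_smul, Submodule.Quotient.mk_eq_zero] at this
    exact this
  · intro h m
    obtain ⟨a, rfl⟩ := Submodule.Quotient.mk_surjective L m
    rw [← Submodule.Quotient.mk_smul, Submodule.Quotient.mk_eq_zero]
    exact h a

theorem capIdeal_induction {R : Type*} [Ring R] {N : ℕ} {P : R → Prop} (h0 : P 0)
    (hadd : ∀ a b, P a → P b → P (a + b)) (hneg : ∀ a, P a → P (-a))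
    (hcap : ∀ r r' x y y', P (r * cap N x y y' * r')) {a : R} (ha : a ∈ capIdeal R N) : P a := by
  have ha' : a ∈ AddSubgroup.closure
      {z : R | ∃ r r' : R, ∃ x y y' : Fin N → R, z = r * cap N x y y' * r'} := ha
  clear ha
  induction ha' using AddSubgroup.closure_induction with
  | mem z hz =>
    obtain ⟨r, r', x, y, y', rfl⟩ := hz
    exact hcap _ _ _ _ _
  | zero => exact h0
  | add z w hz hw h1 h2 => exact hadd _ _ h1 h2
  | neg z hz h1 => exact hneg _ h1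

theorem cap_mem {R : Type*} [Ring R] {N : ℕ} (x y y' : Fin N → R) : cap N x y y' ∈ capIdeal R N := by
  have : cap N x y y' ∈ AddSubgroup.closure
      {z : R | ∃ r r' : R, ∃ x y y' : Fin N → R, z = r * cap N x y y' * r'} :=
    AddSubgroup.subset_closure ⟨1, 1, x, y, y', by rw [one_mul, mul_one]⟩
  exact this

theorem map_capIdeal_zero {R K : Type*} [Ring R] [Field K] (e N : ℕ) (h : e * e < N)
    (ρ : R →+* Matrix (Fin e) (Fin e) K) {a : R} (ha : a ∈ capIdeal R N) : ρ a = 0 := by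
  refine capIdeal_induction (P := fun a => ρ a = 0) (map_zero _) ?_ ?_ ?_ ha
  · intro a b ha hb
    rw [map_add, ha, hb, add_zero]
  · intro a ha
    rw [map_neg, ha, neg_zero]
  · intro r r' x y y'
    rw [map_mul, map_mul, Pool.Agent.H317R2.PI.cap_map, Pool.Agent.H317R2.PI.cap_zero e N h, mul_zero, zero_mul]

theorem step {ι : Type*} [Fintype ι] [DecidableEq ι] (h3 : ∀ i j : ι, ∃ k : ι, k ≠ i ∧ k ≠ j)
    {R : Type} [Ring R] {D : ℕ} {c : Equiv.Perm (Fin D) → ℤ} (hc : c 1 = 1) (hR : PId R D c)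
    (d : ℕ) (hd : 0 < d) (hcls : Cls R d)
    (hJ : ∀ r : R, (∀ L : Submodule R R, IsCoatom L → ∀ a : R, r * a ∈ L) → r = 0)
    (IH : (El ι (R ⧸ (capIdeal R (d * d) * capIdeal R (d * d)))).Normal) :
    (El ι R).Normal := by
  classical
  let X := {L : Submodule R R // IsCoatom L ∧ ∃ (K : Type) (_ : Field K)
    (ρ : R →+* Matrix (Fin d) (Fin d) K),
    (∀ r : R, ρ r = 0 ↔ ∀ m : R ⧸ L, r • m = 0) ∧ Submodule.span K (Set.range ρ) = ⊤}
  let K : X → Type := fun x => Classical.choose x.2.2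
  letI : ∀ x, Field (K x) := fun x => Classical.choose (Classical.choose_spec x.2.2)
  let ρ : ∀ x, R →+* Matrix (Fin d) (Fin d) (K x) := fun x =>
    Classical.choose (Classical.choose_spec (Classical.choose_spec x.2.2))
  have hρ : ∀ x : X, ∀ r, ρ x r = 0 ↔ ∀ m : R ⧸ x.1, r • m = 0 := fun x =>
    (Classical.choose_spec (Classical.choose_spec (Classical.choose_spec x.2.2))).1
  refine step_core h3 (piHom ρ) (capIdeal R (d * d)) ?_ ?_ IH
  · intro r hr h0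
    rw [piHom_eq_zero] at h0
    apply hJ
    intro L hL a
    obtain ⟨e, hed, K', _, ρ', h1, h2⟩ := hcls L hL
    rcases Nat.lt_or_ge e d with hlt | hge
    · have : ρ' r = 0 := map_capIdeal_zero e (d * d) (Nat.mul_self_lt_mul_self hlt) ρ' hr
      exact (smul_quot_iff L r).1 ((h1 r).1 this) a
    · obtain rfl : e = d := le_antisymm hed hge
      exact (smul_quot_iff L r).1 ((hρ ⟨L, hL, K', _, ρ', h1, h2⟩ r).1 (h0 _)) a
  · intro I _
    exact Pool.Agent.H754R2.PISus.El_normal_of_SRG h3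
      (Pool.Agent.H317R2.PI.SRG_of_Good D c hc (Pool.Agent.H431R2.ZLem.Good_Dbl I D c (Pool.Agent.H928R2.PIDet.Good_TT hd (piHom ρ) D c hR)))

end step

end Pool.Agent.H85R2.PI
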