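import Pool.Agent.H85R2.PIElem

set_option autoImplicit false

namespace Pool.Agent.H85R2.PI.Stubs

open Matrix Polynomial
open scoped commutatorElement

/- LIFT -/
theorem lift_normal {ι R S : Type*} [Fintype ι] [DecidableEq ι] [Ring R] [Ring S]
    (h3 : ∀ i j : ι, ∃ k : ι, k ≠ i ∧ k ≠ j) (φ : R →+* S) (hφ : Function.Surjective φ)
    (F : Subgroup (Matrix ι ι R)ˣ) (hFn : F.Normal) (hF : F ≤ El ι R)
    (hEK : ∀ e ∈ El ι R, ∀ k : (Matrix ι ι R)ˣ, glm ι φ k = 1 → ⁅e, k⁆ ∈ F)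
    (hS : (El ι S).Normal) : (El ι R).Normal := by
  sorry

/- RAD -/
theorem rad_normal {ι R S : Type*} [Fintype ι] [DecidableEq ι] [Ring R] [Ring S]
    (h3 : ∀ i j : ι, ∃ k : ι, k ≠ i ∧ k ≠ j) (φ : R →+* S) (hφ : Function.Surjective φ)
    (hrad : ∀ x : R, φ x = 0 → IsUnit (1 + x))
    (hS : (El ι S).Normal) : (El ι R).Normal := by
  sorry

/- SUS -/
theorem El_normal_of_SRG {ι : Type*} [Fintype ι] [DecidableEq ι]
    (h3 : ∀ i j : ι, ∃ k : ι, k ≠ i ∧ k ≠ j) {Γ T : Type*} [CommRing Γ] [Ring T] [Algebra Γ T]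
    (h : SRG Γ T) : (El ι T).Normal := by
  sorry

/- ZLEM -/
theorem Zlem {ι : Type*} [Fintype ι] [DecidableEq ι]
    (h3 : ∀ i j : ι, ∃ k : ι, k ≠ i ∧ k ≠ j) {Γ T : Type*} [CommRing Γ] [Ring T] [Algebra Γ T]
    (c I : Ideal T) [c.IsTwoSided] [I.IsTwoSided]
    (hcI : ∀ x ∈ I, x ∈ AddSubgroup.closure {z : T | ∃ a ∈ c, ∃ b ∈ c, z = a * b})
    (e : (Matrix ι ι (Dbl Γ I))ˣ) (he : e ∈ El ι (Dbl Γ I)) (h2 : glm ι (p2 Γ I) e = 1) :
    glm ι (p1 Γ I) e ∈ ElS ι (c : Set T) := by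
  sorry

/- DBL -/
theorem Good_Dbl {Γ T : Type*} [CommRing Γ] [Ring T] [Algebra Γ T] (I : Ideal T) [I.IsTwoSided]
    (D : ℕ) (c : Equiv.Perm (Fin D) → ℤ) (h : Good Γ T D c) : Good Γ (Dbl Γ I) D c := by
  sorry

/- K0: a ring with an identity acting densely on a vector space over a division ring
forces the dimension to be at most `D` -/
theorem no_indep {A M Δ : Type*} [Ring A] [AddCommGroup M] [Module A M] [DivisionRing Δ]
    [Module Δ M] (dens : ∀ f : M →ₗ[Δ] M, ∀ s : Finset M, ∃ a : A, ∀ m ∈ s, a • m = f m)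
    (D : ℕ) (c : Equiv.Perm (Fin D) → ℤ) (hc : c 1 = 1) (hA : PId A D c)
    (v : Fin (D + 1) → M) (hv : LinearIndependent Δ v) : False := by
  sorry

/- SR -/
theorem SRG_of_Good {Γ T : Type*} [CommRing Γ] [Ring T] [Algebra Γ T]
    (D : ℕ) (c : Equiv.Perm (Fin D) → ℤ) (hc : c 1 = 1) (h : Good Γ T D c) : SRG Γ T := by
  sorry

/- KAP -/
theorem Cls_of_PId (R : Type) [Ring R] (D : ℕ) (c : Equiv.Perm (Fin D) → ℤ) (hc : c 1 = 1)
    (hR : PId R D c) : Cls R D := by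
  sorry

/- CAP -/
theorem cap_map {R S : Type*} [Ring R] [Ring S] (φ : R →+* S) (N : ℕ) (x y y' : Fin N → R) :
    φ (cap N x y y') = cap N (fun i => φ (x i)) (fun i => φ (y i)) (fun i => φ (y' i)) := by
  sorry

theorem cap_zero {K : Type*} [Field K] (e N : ℕ) (h : e * e < N)
    (x y y' : Fin N → Matrix (Fin e) (Fin e) K) : cap N x y y' = 0 := by
  sorry

theorem cap_ne_of_span {K : Type*} [Field K] (d : ℕ) (hd : 0 < d)
    (S : Set (Matrix (Fin d) (Fin d) K)) (hS : Submodule.span K S = ⊤) :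
    ∃ x y y' : Fin (d * d) → Matrix (Fin d) (Fin d) K,
      (∀ i, x i ∈ S) ∧ (∀ i, y i ∈ S) ∧ (∀ i, y' i ∈ S) ∧ cap (d * d) x y y' ≠ 0 := by
  sorry

/- DET -/
theorem Good_TT {R C : Type*} [Ring R] [CommRing C] {d : ℕ} (hd : 0 < d)
    (π : R →+* Matrix (Fin d) (Fin d) C) (D : ℕ) (c : Equiv.Perm (Fin D) → ℤ)
    (hR : PId R D c) :
    Good (Gam π (capIdeal R (d * d))) (TT π (capIdeal R (d * d))) D c := by
  sorry

end Pool.Agent.H85R2.PI.Stubs
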