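import Pool.Agent.H85R2.GrLie

/-!
Definitions: the free Lie ring on an abelian group, the property of being a free Lie algebra
modulo quadratic relations, and the group `IA_n`.
-/

set_option autoImplicit false

open scoped commutatorElement DirectSum

namespace Pool.Agent.H85R2.GrLie

/-- The elements `(v + w) - v - w` of the free Lie ring on the underlying set of `V`. -/
def addRel (V : Type*) [AddCommGroup V] : Set (FreeLieAlgebra ℤ V) :=
  {x | ∃ v w : V, x = FreeLieAlgebra.of ℤ (v + w) - FreeLieAlgebra.of ℤ v - FreeLieAlgebra.of ℤ w}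

/-- The free Lie ring `L[V]` on the abelian group `V`: the free Lie ring on the underlying set of
`V` modulo the Lie ideal generated by all `(v + w) - v - w`. -/
def FreeLieOn (V : Type*) [AddCommGroup V] : Type _ :=
  FreeLieAlgebra ℤ V ⧸ LieSubmodule.lieSpan ℤ (FreeLieAlgebra ℤ V) (addRel V)

noncomputable instance (V : Type*) [AddCommGroup V] : LieRing (FreeLieOn V) :=
  LieSubmodule.Quotient.lieQuotientLieRing (LieSubmodule.lieSpan ℤ (FreeLieAlgebra ℤ V) (addRel V))

/-- The canonical map `V → L[V]`. -/
noncomputable def FreeLieOn.incl {V : Type*} [AddCommGroup V] (v : V) : FreeLieOn V :=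
  LieSubmodule.Quotient.mk (FreeLieAlgebra.of ℤ v)

/-- the additive subgroup generated by all brackets `[v, y]` with `v` in `V` and `y` in `A` -/
noncomputable def FreeLieOn.next (V : Type*) [AddCommGroup V] (A : AddSubgroup (FreeLieOn V)) :
    AddSubgroup (FreeLieOn V) :=
  AddSubgroup.closure {x | ∃ v : V, ∃ y ∈ A, x = ⁅FreeLieOn.incl v, y⁆}

/-- The homogeneous component `L_{k+1}[V]` of degree `k + 1` of `L[V]`: for `k = 0` it is generated
by the image of `V`, and `L_{k+2}[V]` is generated by the brackets `[v, y]` with `v` in `V` and `y`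
in `L_{k+1}[V]`. -/
noncomputable def FreeLieOn.homog (V : Type*) [AddCommGroup V] (k : ℕ) :
    AddSubgroup (FreeLieOn V) :=
  (FreeLieOn.next V)^[k] (AddSubgroup.closure (Set.range FreeLieOn.incl))

/-- The quotient `L[V] / (S)` of `L[V]` by the Lie ideal generated by the set `S`. -/
def FreeLieOn.Quot (V : Type*) [AddCommGroup V] (S : Set (FreeLieOn V)) : Type _ :=
  FreeLieOn V ⧸ LieSubmodule.lieSpan ℤ (FreeLieOn V) S

noncomputable instance (V : Type*) [AddCommGroup V] (S : Set (FreeLieOn V)) :
    LieRing (FreeLieOn.Quot V S) :=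
  LieSubmodule.Quotient.lieQuotientLieRing (LieSubmodule.lieSpan ℤ (FreeLieOn V) S)

/-- The projection `L[V] → L[V] / (S)`. -/
noncomputable def FreeLieOn.toQuot {V : Type*} [AddCommGroup V] (S : Set (FreeLieOn V)) (x : FreeLieOn V) :
    FreeLieOn.Quot V S :=
  LieSubmodule.Quotient.mk (N := LieSubmodule.lieSpan ℤ (FreeLieOn V) S) x

/-- `E_0^*(G)` is a free Lie algebra modulo quadratic relations: with `V = G/[G,G]`, there are a
set `S` of elements of `L_2[V]` and an isomorphism of Lie rings from `L[V] / (S)` to `E_0^*(G)`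
which is graded, i.e. carries the component of degree `k + 1` onto the component of degree
`k + 1`, for all `k`. -/
def IsFreeModQuadratic (G : Type*) [Group G] : Prop :=
  ∃ S : Set (FreeLieOn (Comp G 0)), (∀ s ∈ S, s ∈ FreeLieOn.homog (Comp G 0) 1) ∧
    ∃ φ : FreeLieOn.Quot (Comp G 0) S ≃ₗ⁅ℤ⁆ E0 G,
      ∀ (k : ℕ) (y : E0 G), (∃ c : Comp G k, y = E0.of k c) ↔
        ∃ x ∈ FreeLieOn.homog (Comp G 0) k, φ (FreeLieOn.toQuot S x) = y

/-- The group `IA_n` of all automorphisms of the free group of rank `n` that induce the identity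
on its abelianization. -/
def IA (n : ℕ) : Subgroup (MulAut (FreeGroup (Fin n))) where
  carrier := {φ | ∀ w : FreeGroup (Fin n), Abelianization.of (φ w) = Abelianization.of w}
  mul_mem' := by
    intro a b ha hb w
    rw [MulAut.mul_apply, ha, hb]
  one_mem' := fun w => rfl
  inv_mem' := by
    intro a ha w
    have := ha (a⁻¹ w)
    rw [MulAut.apply_inv_self] at this
    exact this.symm

end Pool.Agent.H85R2.GrLie
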