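import Pool.Agent.H306R2.RZ.Defs2
import Pool.Agent.H884R2.RZ_LIM1

set_option autoImplicit false

/-! Task LIM1A of project RZ. -/

namespace Pool.Agent.H85R2.RZ2

open Finset Filter Topology MeasureTheory
open Pool.Agent.H306R2.RZ

noncomputable section

theorem LIM1A (F : ℝ → ℝ) (hF : TF F) (q : ℕ) (hq : Even q) (hq0 : q ≠ 0) (c : ℝ) (hc : 0 < c)
    (s θ : ℝ) (hA : Adm s θ) (w Q : ℝ → ℝ) (h1 : Wt s w) (h2 : Wt θ Q) :
    Tendsto (fun L : ℝ => TO F (c * Real.exp L) q L w Q) atTop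
      (𝓝 (1 / 2 * Ft F 0 * (mn w Q / 2))) :=
  Pool.Agent.H884R2.RZ.LIM1 F hF q hq hq0 c hc s θ (by linarith [hA.hs]) hA.hθ hA.hst w Q h1 h2

end

end Pool.Agent.H85R2.RZ2
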